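import Pool.Agent.Lib.MP_1a91b9_ntH2.A.Em
import Pool.Agent.Lib.MP_1a91b9_ntH2.R.DefsC
import Pool.Agent.Lib.MP_1a91b9_ntH.A.Half
import Pool.Agent.Lib.MP_1a91b9_ntH.A.Rep

/-!
# TwistDensity, phase 2, part A, file Fp: the sum over the points of order two
-/

set_option autoImplicit false

namespace Pool.Agent.Lib.MP_1a91b9_ntH2

open NumberField IsDedekindDomain Pool.Agent.Lib.MP_1a91b9_ntT Pool.Agent.Lib.MP_1a91b9_ntG
  Pool.Agent.Lib.MP_1a91b9_ntH

noncomputable section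

/-- a lift of an element of `F4` -/
def lft (x : F4) : 𝓞 K := (((x.a.val : ℕ) : ℤ) : 𝓞 K) + (((x.b.val : ℕ) : ℤ) : 𝓞 K) * wO

theorem red_lft (x : F4) : red (lft x) = x := by
  rw [lft, red_coord]
  ext <;> simp

/-- the character sum of `E1` over the points of order two -/
def FP (c : F4) (P : ℂ) : ℂ := ∑ x : F4, (sgz (F4.tr (c * x)) : ℂ) * E1 (P + em (lft x) / 2)

end

end Pool.Agent.Lib.MP_1a91b9_ntH2
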