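import Pool.Agent.Lib.MP_1a91b9_ntH.A.Sum
import Pool.Agent.Lib.MP_1a91b9_ntH2.A.Fp

/-!
# TwistDensity, phase 2, part A, file SumC: the sign of a class, the character `chic`, and the
representatives modulo `12 DD D`
-/

set_option autoImplicit false

namespace Pool.Agent.Lib.MP_1a91b9_ntH2

open NumberField IsDedekindDomain Pool.Agent.Lib.MP_1a91b9_ntT Pool.Agent.Lib.MP_1a91b9_ntG
  Pool.Agent.Lib.MP_1a91b9_ntH

noncomputable section

/-! ### The class of an element congruent to `1` modulo `2` -/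

theorem SumC_half_one : half (1 : 𝓞 K) = 0 := by
  have h := half_eq (0 : 𝓞 K)
  rwa [mul_zero, add_zero] at h

theorem SumC_red_two : red (2 : 𝓞 K) = 0 := red_eq_zero.2 dvd_rfl

theorem SumC_red_half_mul {x y : 𝓞 K} (hx : (2 : 𝓞 K) ∣ x - 1) (hy : (2 : 𝓞 K) ∣ y - 1) :
    red (half (x * y)) = red (half x) + red (half y) := by
  obtain ⟨a, ha⟩ := hx
  obtain ⟨b, hb⟩ := hy
  have e1 : x = 1 + 2 * a := by linear_combination ha
  have e2 : y = 1 + 2 * b := by linear_combination hb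
  have e3 : x * y = 1 + 2 * (a + b + 2 * (a * b)) := by rw [e1, e2]; ring
  rw [e3, e1, e2, half_eq, half_eq, half_eq, map_add, map_add, map_mul, SumC_red_two, zero_mul, add_zero]

theorem SumC_red_half_congr {x y : 𝓞 K} (hx : (2 : 𝓞 K) ∣ x - 1) (h : (4 : 𝓞 K) ∣ x - y) :
    red (half x) = red (half y) := by
  obtain ⟨a, ha⟩ := hx
  obtain ⟨t, ht⟩ := h
  have e1 : x = 1 + 2 * a := by linear_combination ha
  have e2 : y = 1 + 2 * (a + 2 * (-t)) := by linear_combination ha - ht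
  rw [e1, e2, half_eq, half_eq, map_add, map_mul, SumC_red_two, zero_mul, add_zero]

theorem SumC_red_half_neg_one : red (half (-1 : 𝓞 K)) = 1 := by
  have h := half_eq (-1 : 𝓞 K)
  have e : (1 : 𝓞 K) + 2 * (-1) = -1 := by ring
  rw [e] at h
  rw [h, map_neg, map_one]
  decide

theorem SumC_F4_tr_add (x y : F4) : F4.tr (x + y) = F4.tr x + F4.tr y := rfl

/-- the sign of the class of `x` -/
def sgc (c : F4) (x : 𝓞 K) : ℤ := sgz (F4.tr (c * red (half x)))

theorem SumC_sgc_cases (c : F4) (x : 𝓞 K) : sgc c x = 1 ∨ sgc c x = -1 := sgz_cases _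

theorem SumC_sgc_one (c : F4) : sgc c 1 = 1 := by
  rw [sgc, SumC_half_one, map_zero, mul_zero]
  rfl

theorem SumC_sgc_mul {c : F4} {x y : 𝓞 K} (hx : (2 : 𝓞 K) ∣ x - 1) (hy : (2 : 𝓞 K) ∣ y - 1) :
    sgc c (x * y) = sgc c x * sgc c y := by
  rw [sgc, SumC_red_half_mul hx hy, mul_add, SumC_F4_tr_add, sgz_add]
  rfl

theorem SumC_sgc_congr {c : F4} {x y : 𝓞 K} (hx : (2 : 𝓞 K) ∣ x - 1) (h : (4 : 𝓞 K) ∣ x - y) :
    sgc c x = sgc c y := by
  rw [sgc, SumC_red_half_congr hx h]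
  rfl

/-! ### The character `chic` -/

theorem SumC_chic_eq (c : F4) (S : Finset Pq) (x : 𝓞 K) : chic c S x = chi S x * sgc c x := rfl

theorem SumC_chic_one (c : F4) (S : Finset Pq) : chic c S 1 = 1 := by
  rw [SumC_chic_eq, chi_one, SumC_sgc_one, mul_one]

theorem SumC_chic_mul {c : F4} {S : Finset Pq} {x y : 𝓞 K} (hx : (2 : 𝓞 K) ∣ x - 1)
    (hy : (2 : 𝓞 K) ∣ y - 1) : chic c S (x * y) = chic c S x * chic c S y := by
  rw [SumC_chic_eq, SumC_chic_eq, SumC_chic_eq, chi_mul, SumC_sgc_mul hx hy]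
  ring

theorem SumC_chic_congr {c : F4} {S : Finset Pq} {x y : 𝓞 K} (hx : (2 : 𝓞 K) ∣ x - 1)
    (h4 : (4 : 𝓞 K) ∣ x - y) (h : DD S ∣ x - y) : chic c S x = chic c S y := by
  rw [SumC_chic_eq, SumC_chic_eq, chi_congr h, SumC_sgc_congr hx h4]

theorem SumC_chic_cases (c : F4) (S : Finset Pq) (x : 𝓞 K) :
    chic c S x = 0 ∨ chic c S x = 1 ∨ chic c S x = -1 := by
  rw [SumC_chic_eq]
  rcases chi_cases S x with h | h | h <;> rcases SumC_sgc_cases c x with h1 | h1 <;> rw [h, h1] <;> simp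

theorem SumC_norm_chic (c : F4) (S : Finset Pq) (x : 𝓞 K) : ‖(chic c S x : ℂ)‖ ≤ 1 := by
  rcases SumC_chic_cases c S x with h | h | h <;> rw [h] <;> simp

theorem SumC_chic_eq_zero {c : F4} {S : Finset Pq} {x : 𝓞 K} :
    chic c S x = 0 ↔ ∃ p ∈ S, p.1 ∣ x := by
  rw [← chi_eq_zero, SumC_chic_eq, mul_eq_zero]
  constructor
  · rintro (h | h)
    · exact h
    · rcases SumC_sgc_cases c x with h1 | h1 <;> rw [h1] at h <;> norm_num at h
  · exact fun h => Or.inl h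

theorem SumC_chic_coprime {c : F4} {S : Finset Pq} {x : 𝓞 K} :
    chic c S x = 0 ↔ ¬ IsCoprime x (DD S) := by
  rw [SumC_chic_eq_zero, ← chi_eq_zero, chi_coprime]

theorem SumC_chic_neg_one (c : F4) (S : Finset Pq) :
    chic c S (-1) = if (qd.A S + c).b = 0 then 1 else -1 := by
  rw [SumC_chic_eq, chi_neg_one', sgc, SumC_red_half_neg_one, mul_one]
  change _ = if (qd.A S).b + c.b = 0 then (1 : ℤ) else -1
  rw [sgz]
  change (if (qd.A S).b = 0 then (1 : ℤ) else -1) * (if c.b = 0 then (1 : ℤ) else -1) = _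
  generalize (qd.A S).b = x
  generalize c.b = y
  revert x y
  decide

theorem SumC_chic_neg {c : F4} {S : Finset Pq} (h : (qd.A S + c).b ≠ 0) {a : 𝓞 K}
    (ha : (2 : 𝓞 K) ∣ a - 1) : chic c S (-a) = -chic c S a := by
  have h1 : (2 : 𝓞 K) ∣ -1 - 1 := ⟨-1, by ring⟩
  rw [← neg_one_mul, SumC_chic_mul h1 ha, SumC_chic_neg_one, if_neg h, neg_one_mul]

/-! ### The representatives modulo `12 DD D` -/

theorem SumC_two_of_f0 {a : 𝓞 K} (h : f0 ∣ a - 1) : (2 : 𝓞 K) ∣ a - 1 := (dvd_mul_right (2 : 𝓞 K) s3).trans h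

/-- an element congruent to `1` modulo `f0` is prime to `6` -/
theorem SumC_cop_six {a : 𝓞 K} (h : f0 ∣ a - 1) : IsCoprime a 6 := by
  obtain ⟨c, hc⟩ := h
  have h1 : IsCoprime a f0 := ⟨1, -c, by linear_combination hc⟩
  have h2 : IsCoprime a s3 := h1.of_isCoprime_of_dvd_right (dvd_mul_left _ _)
  rw [six_eq]
  exact (IsCoprime.mul_right h1 h2).neg_right

theorem SumC_cop_two {a : 𝓞 K} (h : f0 ∣ a - 1) : IsCoprime a 2 :=
  (SumC_cop_six h).of_isCoprime_of_dvd_right ⟨3, by norm_num⟩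

theorem SumC_cop_twelve {a : 𝓞 K} (h : f0 ∣ a - 1) : IsCoprime a 12 := by
  have e : (12 : 𝓞 K) = 6 * 2 := by norm_num
  rw [e]
  exact IsCoprime.mul_right (SumC_cop_six h) (SumC_cop_two h)

theorem SumC_cop_iff {a : 𝓞 K} (h : f0 ∣ a - 1) (D : Finset Pq) :
    IsCoprime a (12 * DD D) ↔ IsCoprime a (DD D) :=
  ⟨fun h1 => h1.of_isCoprime_of_dvd_right (dvd_mul_left _ _),
    fun h1 => IsCoprime.mul_right (SumC_cop_twelve h) h1⟩

theorem SumC_cop_iff' {a : 𝓞 K} (h : f0 ∣ a - 1) (D : Finset Pq) :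
    IsCoprime a (6 * DD D) ↔ IsCoprime a (DD D) :=
  ⟨fun h1 => h1.of_isCoprime_of_dvd_right (dvd_mul_left _ _),
    fun h1 => IsCoprime.mul_right (SumC_cop_six h) h1⟩

/-- representatives modulo `12 DD D` from the representatives modulo `6 DD D` -/
theorem repsC {D : Finset Pq} {ι : Type} {c : ι → 𝓞 K} (h : Reps (6 * DD D) c) :
    Reps (12 * DD D) (fun p : ι × F4 => c p.1 + 6 * DD D * lft p.2) where
  ne := mul_ne_zero (by norm_num) (DD_ne D)
  dvd := ⟨2 * DD D, by ring⟩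
  fx := by
    rintro ⟨i, x⟩
    have e : c i + 6 * DD D * lft x - 1 = (c i - 1) + 6 * (DD D * lft x) := by ring
    change f0 ∣ c i + 6 * DD D * lft x - 1
    rw [e]
    exact dvd_add (h.fx i) (f0_dvd_six.mul_right _)
  cop := by
    rintro ⟨i, x⟩
    change IsCoprime (c i + 6 * DD D * lft x) (12 * DD D)
    have e : c i + 6 * DD D * lft x - 1 = (c i - 1) + 6 * (DD D * lft x) := by ring
    have h1 : f0 ∣ c i + 6 * DD D * lft x - 1 := by
      rw [e]
      exact dvd_add (h.fx i) (f0_dvd_six.mul_right _)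
    rw [SumC_cop_iff h1]
    obtain ⟨p, q, hpq⟩ := (SumC_cop_iff' (h.fx i) D).1 (h.cop i)
    exact ⟨p, q - p * 6 * lft x, by linear_combination hpq⟩
  ex := by
    intro a ha h1
    obtain ⟨i, e, he⟩ := h.ex a ((SumC_cop_iff' h1 D).2 ((SumC_cop_iff h1 D).1 ha)) h1
    have h2 : red e = red (lft (red e)) := (red_lft _).symm
    obtain ⟨t, ht⟩ := red_eq.1 h2
    exact ⟨(i, red e), t, by
      change a - (c i + 6 * DD D * lft (red e)) = _
      linear_combination he + 6 * DD D * ht⟩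
  inj := by
    rintro ⟨i, x⟩ ⟨j, y⟩ ⟨t, ht⟩
    change c i + 6 * DD D * lft x - (c j + 6 * DD D * lft y) = _ at ht
    have h1 : i = j := h.inj i j ⟨2 * t - lft x + lft y, by linear_combination ht⟩
    subst h1
    have h2 : 6 * DD D * (lft x - lft y) = 6 * DD D * (2 * t) := by linear_combination ht
    have h3 : lft x - lft y = 2 * t := mul_left_cancel₀ h.ne h2
    have h4 : red (lft x) = red (lft y) := red_eq.2 ⟨t, h3⟩
    rw [red_lft, red_lft] at h4
    rw [h4]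

theorem SumC_qs {D : Finset Pq} {q : Pq} (hq : q ∈ D) (a e : 𝓞 K) :
    qs q (a + 6 * DD D * e) = qs q a := by
  apply qs_congr
  have h1 : q.1 ∣ DD D := Finset.dvd_prod_of_mem (fun q : Pq => q.1) hq
  have e1 : a + 6 * DD D * e - a = DD D * (6 * e) := by ring
  rw [e1]
  exact h1.mul_right _

theorem SumC_sgc {D : Finset Pq} (c : F4) {a : 𝓞 K} (ha : (2 : 𝓞 K) ∣ a - 1) (x : F4) :
    sgc c (a + 6 * DD D * lft x) = sgc c a * sgz (F4.tr (c * x)) := by
  obtain ⟨b, hb⟩ := ha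
  obtain ⟨d, hd⟩ := DD_two D
  have e1 : a = 1 + 2 * b := by linear_combination hb
  have e2 : a + 6 * DD D * lft x = 1 + 2 * (b + (lft x + 2 * (lft x * (1 + 3 * d)))) := by
    linear_combination hb + 6 * lft x * hd
  rw [sgc, e2, half_eq, sgc, e1, half_eq, map_add, map_add, map_mul, SumC_red_two, zero_mul, add_zero,
    red_lft, mul_add, SumC_F4_tr_add, sgz_add]

end

end Pool.Agent.Lib.MP_1a91b9_ntH2
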