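import Pool.Agent.Lib.MP_1a91b9_ntH2.A.Fp
import Pool.Agent.Lib.MP_1a91b9_ntT.Rq.Act

/-!
# TwistDensity, phase 2, part A, file Quarter: the residue class of `FP` (A3, A4)

`FP c P` for `c ≠ 0`: with `t` the inverse of `c`, `FP c P = E1 P + E1 (P + T) - E1 (P + T') - E1 (P + T'')`,
`T = t / 2` and `T'`, `T''` the other points of order two. Then `FP c P ^ 2 = 4 Ω² (X (2 P) - X T)`, and
`X (2 P) - X T = kac c ^ 2 (1 + small)` when `2 P = 1 / 2 + Q` with `Q` of odd order.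
-/

set_option autoImplicit false

namespace Pool.Agent.Lib.MP_1a91b9_ntH2

open NumberField IsDedekindDomain Pool.Agent.Lib.MP_1a91b9_ntT Pool.Agent.Lib.MP_1a91b9_ntG
  Pool.Agent.Lib.MP_1a91b9_ntH

noncomputable section

/-- the abscissa of `1 / 2` -/
def Quarter_a : ℂ := S3.X (1 / 2)

theorem Quarter_a_eq : 4 * Quarter_a ^ 3 + 1 = 0 := Half_X

theorem Quarter_a_ne : Quarter_a ≠ 0 := Half_X_ne

theorem Quarter_X_zt (z : ℂ) : S3.X (zt * z) = zt * S3.X z := by
  rw [S3.X, S3.X, S3.P_zt, mul_div_assoc]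

theorem Quarter_X_neg (z : ℂ) : S3.X (-z) = S3.X z := by
  rw [S3.X, S3.X, PeriodPair.weierstrassP_neg]

theorem Quarter_zt_sub : zt - 1 ≠ 0 := sub_ne_zero.2 S3.zt_ne_one

theorem Quarter_zt_sq_sub : zt ^ 2 - 1 ≠ 0 := by
  intro h
  have h1 : zt = -2 := by linear_combination S3.zt_quad - h
  have h2 := S3.zt_quad
  rw [h1] at h2
  norm_num at h2

/-- the square of the constant `kac` -/
def kacs (c : F4) : ℂ :=
  if c = 1 then -3 * Quarter_a else if c = ⟨0, 1⟩ then Quarter_a * (zt - 1) else Quarter_a * (zt ^ 2 - 1)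

/-- the constant of the class `c` (for `c ≠ 0`) -/
def kac (c : F4) : ℂ := kacs c ^ (((2 : ℕ) : ℂ)⁻¹)

theorem kac_sq (c : F4) : kac c ^ 2 = kacs c := Complex.cpow_nat_inv_pow _ two_ne_zero

theorem kacs_ne (c : F4) : kacs c ≠ 0 := by
  rw [kacs]
  have h1 := Quarter_a_ne
  split_ifs
  · exact mul_ne_zero (by norm_num) h1
  · exact mul_ne_zero h1 Quarter_zt_sub
  · exact mul_ne_zero h1 Quarter_zt_sq_sub

theorem kac_ne {c : F4} (_hc : c ≠ 0) : kac c ≠ 0 := by
  intro h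
  have h1 := kac_sq c
  rw [h] at h1
  exact kacs_ne c (by rw [← h1]; norm_num)

/-- the chord relation with a point of order two -/
theorem Quarter_chord {T z : ℂ} (hT : 2 * T ∈ PP.lattice) (hT0 : T ∉ PP.lattice)
    (hz : 2 * z ∉ PP.lattice) :
    2 * (S3.X z - S3.X T) * ((E1 (z + T) - E1 z) / Om) = S3.Y z := by
  have hO := Om_ne_zero
  have h1 : T - z ∉ PP.lattice := by
    intro h
    apply hz
    have h2 := sub_mem hT (S3.mul_int_mem h 2)
    have e : 2 * T - ((2 : ℤ) : ℂ) * (T - z) = 2 * z := by push_cast; ring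
    rwa [e] at h2
  have h2 : T + z ∉ PP.lattice := by
    intro h
    apply hz
    have h2 := sub_mem (S3.mul_int_mem h 2) hT
    have e : ((2 : ℤ) : ℂ) * (T + z) - 2 * T = 2 * z := by push_cast; ring
    rwa [e] at h2
  have h := S3.sig hz hT0 h1 h2
  have e1 : E1 (T - z) = -E1 (z + T) := by
    have e : (T - z : ℂ) = -(z - T) := by ring
    have e' : (z + T : ℂ) = (z - T) + 2 * T := by ring
    rw [e, E1_odd, e', S3.E1_add hT]
  have e2 : (T + z : ℂ) = z + T := by ring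
  rw [e1, e2] at h
  have h3 : PP.weierstrassP T = Om ^ 2 * S3.X T := by
    rw [S3.X]
    field_simp
  have h4 : PP.weierstrassP z = Om ^ 2 * S3.X z := by
    rw [S3.X]
    field_simp
  have h5 : PP.derivWeierstrassP z = Om ^ 3 * S3.Y z := by
    rw [S3.Y]
    field_simp
  rw [h3, h4, h5] at h
  have h7 : Om ^ 2 ≠ 0 := pow_ne_zero _ hO
  have h8 : 2 * (S3.X z - S3.X T) * (E1 (z + T) - E1 z) = Om * S3.Y z := by
    apply mul_left_cancel₀ h7
    linear_combination h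
  rw [← mul_div_assoc, div_eq_iff hO]
  linear_combination h8

/-- the ordinate is not zero -/
theorem Quarter_Y_ne {z : ℂ} (hz : 2 * z ∉ PP.lattice) : S3.Y z ≠ 0 := by
  intro h
  have h1 := S3.slope_eq hz
  rw [h, mul_zero] at h1
  have h2 : S3.X z = 0 := by
    have h3 : S3.X z ^ 2 = 0 := by linear_combination (-1 / 3) * h1
    exact pow_eq_zero_iff two_ne_zero |>.1 h3
  have h4 := S3.Y_sq (S3.notMem_of_two_mul hz)
  rw [h, h2] at h4
  norm_num at h4

/-- (A3) in the general form -/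
theorem Quarter_sq {e : ℂ} (he : 4 * e ^ 3 + 1 = 0) {T T' T'' : ℂ}
    (hT : 2 * T ∈ PP.lattice) (hT0 : T ∉ PP.lattice) (hX : S3.X T = e)
    (hT' : 2 * T' ∈ PP.lattice) (hT0' : T' ∉ PP.lattice) (hX' : S3.X T' = zt * e)
    (hT'' : 2 * T'' ∈ PP.lattice) (hT0'' : T'' ∉ PP.lattice) (hX'' : S3.X T'' = zt ^ 2 * e)
    {z : ℂ} (hz : 2 * z ∉ PP.lattice) :
    ((E1 z + E1 (z + T) - E1 (z + T') - E1 (z + T'')) / Om) ^ 2 = 4 * (S3.X (2 * z) - e) := by
  have hO := Om_ne_zero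
  have hY := Quarter_Y_ne hz
  have hY2 := S3.Y_sq (S3.notMem_of_two_mul hz)
  have h1 := Quarter_chord hT hT0 hz
  have h2 := Quarter_chord hT' hT0' hz
  have h3 := Quarter_chord hT'' hT0'' hz
  have h4 := S3.X_two_mul hz
  rw [hX] at h1
  rw [hX'] at h2
  rw [hX''] at h3
  set x := S3.X z with hx
  set y := S3.Y z with hy
  set f1 := (E1 (z + T) - E1 z) / Om with hf1
  set f2 := (E1 (z + T') - E1 z) / Om with hf2
  set f3 := (E1 (z + T'') - E1 z) / Om with hf3
  have e0 : (E1 z + E1 (z + T) - E1 (z + T') - E1 (z + T'')) / Om = f1 - f2 - f3 := by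
    rw [hf1, hf2, hf3]
    field_simp
    ring
  rw [e0]
  have hq := S3.zt_quad
  have hc := S3.zt_cube
  have hy2 : y ^ 2 = 4 * ((x - e) * (x - zt * e) * (x - zt ^ 2 * e)) := by
    linear_combination hY2 + he + 4 * e * (x ^ 2 - x * zt * e) * hq + 4 * e ^ 3 * hc
  have hf : 2 * ((x - e) * (x - zt * e) * (x - zt ^ 2 * e)) * (f1 - f2 - f3) =
      y * (-(x - e) ^ 2 + 3 * e ^ 2) := by
    linear_combination (x - zt * e) * (x - zt ^ 2 * e) * h1 - (x - e) * (x - zt ^ 2 * e) * h2 -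
      (x - e) * (x - zt * e) * h3 + y * e ^ 2 * (-hq + hc)
  have hF : y * (f1 - f2 - f3) = 2 * (-(x - e) ^ 2 + 3 * e ^ 2) := by
    apply mul_left_cancel₀ hY
    linear_combination 2 * hf + (f1 - f2 - f3) * hy2
  have h5 : y ^ 2 * (f1 - f2 - f3) ^ 2 = 4 * (-(x - e) ^ 2 + 3 * e ^ 2) ^ 2 := by
    rw [← mul_pow, hF]
    ring
  apply mul_left_cancel₀ (pow_ne_zero 2 hY)
  rw [h5]
  linear_combination -4 * (S3.X (2 * z) - e) * hY2 - 4 * h4 + 4 * (2 * x + e) * he

theorem Quarter_mem_coords (p q : ℤ) : ((p : ℂ) + q * zt) ∈ PP.lattice := S3.mem_PP.2 ⟨p, q, rfl⟩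

theorem Quarter_zt_half : zt / 2 ∉ PP.lattice := by
  intro h
  apply Half_notMem
  apply S3.zt_mul_mem.1
  rwa [show zt * (1 / 2) = zt / 2 by ring]

theorem Quarter_zt2_half : (1 + zt) / 2 ∉ PP.lattice := by
  intro h
  apply Quarter_zt_half
  apply S3.zt_mul_mem.1
  have h1 := neg_mem h
  rwa [show -((1 + zt) / 2) = zt * (zt / 2) by linear_combination (-1 / 2) * S3.zt_quad] at h1

theorem Quarter_X1 : S3.X (zt / 2) = zt * Quarter_a := by
  rw [show zt / 2 = zt * (1 / 2) by ring, Quarter_X_zt, Quarter_a]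

theorem Quarter_X2 : S3.X ((1 + zt) / 2) = zt ^ 2 * Quarter_a := by
  rw [← Quarter_X_neg, show -((1 + zt) / 2) = zt * (zt / 2) by linear_combination (-1 / 2) * S3.zt_quad,
    Quarter_X_zt, Quarter_X1]
  ring

/-- the sum over the field with four elements -/
theorem Quarter_sum (f : F4 → ℂ) : ∑ x : F4, f x = f 0 + f 1 + f ⟨0, 1⟩ + f ⟨1, 1⟩ := by
  have h : (Finset.univ : Finset F4) = {0, 1, ⟨0, 1⟩, ⟨1, 1⟩} := by decide
  rw [h, Finset.sum_insert (by decide), Finset.sum_insert (by decide), Finset.sum_insert (by decide),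
    Finset.sum_singleton]
  ring

theorem Quarter_em_lft (x : F4) : em (lft x) = (x.a.val : ℂ) + (x.b.val : ℂ) * zt := by
  have h := emb_coords ((x.a.val : ℕ) : ℤ) ((x.b.val : ℕ) : ℤ)
  rw [lft]
  refine h.trans ?_
  push_cast
  rfl

/-- `FP` written out -/
theorem Quarter_FP (c : F4) (P : ℂ) : FP c P = (sgz (F4.tr (c * 0)) : ℂ) * E1 P +
    (sgz (F4.tr (c * 1)) : ℂ) * E1 (P + 1 / 2) + (sgz (F4.tr (c * ⟨0, 1⟩)) : ℂ) * E1 (P + zt / 2) +
    (sgz (F4.tr (c * ⟨1, 1⟩)) : ℂ) * E1 (P + (1 + zt) / 2) := by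
  rw [FP, Quarter_sum]
  have h0 : em (lft 0) = 0 := by
    rw [Quarter_em_lft]
    have h1 : (0 : F4).a.val = 0 := by decide
    have h2 : (0 : F4).b.val = 0 := by decide
    rw [h1, h2]
    simp
  have h1 : em (lft 1) = 1 := by
    rw [Quarter_em_lft]
    have h1 : (1 : F4).a.val = 1 := by decide
    have h2 : (1 : F4).b.val = 0 := by decide
    rw [h1, h2]
    simp
  have h2 : em (lft ⟨0, 1⟩) = zt := by
    rw [Quarter_em_lft]
    have h1 : (⟨0, 1⟩ : F4).a.val = 0 := by decide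
    have h2 : (⟨0, 1⟩ : F4).b.val = 1 := by decide
    rw [h1, h2]
    simp
  have h3 : em (lft ⟨1, 1⟩) = 1 + zt := by
    rw [Quarter_em_lft]
    have h1 : (⟨1, 1⟩ : F4).a.val = 1 := by decide
    rw [h1]
    simp
  rw [h0, h1, h2, h3, zero_div, add_zero]

/-- the abscissa of `t / 2`, `t` the inverse of `c` -/
def kae (c : F4) : ℂ :=
  if c = 1 then Quarter_a else if c = ⟨0, 1⟩ then zt ^ 2 * Quarter_a else zt * Quarter_a

/-- (A3) -/
theorem Quarter_FP_sq {c : F4} (hc : c ≠ 0) {P : ℂ} (hP : 2 * P ∉ PP.lattice) :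
    (FP c P / Om) ^ 2 = 4 * (S3.X (2 * P) - kae c) := by
  have hcc : c = 1 ∨ c = ⟨0, 1⟩ ∨ c = ⟨1, 1⟩ := by
    revert c
    decide
  have ha := Quarter_a_eq
  have hz3 := S3.zt_cube
  have m1 : 2 * (1 / 2 : ℂ) ∈ PP.lattice := by
    rw [show 2 * (1 / 2 : ℂ) = 1 by norm_num]
    exact S3.one_mem
  have m2 : 2 * (zt / 2) ∈ PP.lattice := by
    rw [show 2 * (zt / 2) = zt by ring]
    exact S3.zt_mem
  have m3 : 2 * ((1 + zt) / 2) ∈ PP.lattice := by
    rw [show 2 * ((1 + zt) / 2) = 1 + zt by ring]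
    exact add_mem S3.one_mem S3.zt_mem
  rw [Quarter_FP]
  have hm : ∀ e : ℂ, 4 * e ^ 3 + 1 = 0 → 4 * (zt * e) ^ 3 + 1 = 0 := by
    intro e he
    linear_combination he + 4 * e ^ 3 * hz3
  rcases hcc with rfl | rfl | rfl
  · have s0 : sgz (F4.tr ((1 : F4) * 0)) = 1 := by decide
    have s1 : sgz (F4.tr ((1 : F4) * 1)) = 1 := by decide
    have s2 : sgz (F4.tr ((1 : F4) * ⟨0, 1⟩)) = -1 := by decide
    have s3 : sgz (F4.tr ((1 : F4) * ⟨1, 1⟩)) = -1 := by decide
    have h := Quarter_sq ha m1 Half_notMem rfl m2 Quarter_zt_half Quarter_X1 m3 Quarter_zt2_half Quarter_X2 hP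
    rw [s0, s1, s2, s3, kae, if_pos rfl, ← h]
    push_cast
    ring
  · have s0 : sgz (F4.tr ((⟨0, 1⟩ : F4) * 0)) = 1 := by decide
    have s1 : sgz (F4.tr ((⟨0, 1⟩ : F4) * 1)) = -1 := by decide
    have s2 : sgz (F4.tr ((⟨0, 1⟩ : F4) * ⟨0, 1⟩)) = -1 := by decide
    have s3 : sgz (F4.tr ((⟨0, 1⟩ : F4) * ⟨1, 1⟩)) = 1 := by decide
    have h := Quarter_sq (hm _ (hm _ ha)) m3 Quarter_zt2_half (by rw [Quarter_X2]; ring) m1 Half_notMem
      (by
        change Quarter_a = _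
        linear_combination -Quarter_a * hz3) m2 Quarter_zt_half
      (by
        rw [Quarter_X1]
        linear_combination -zt * Quarter_a * hz3) hP
    rw [s0, s1, s2, s3, kae, if_neg (by decide), if_pos rfl]
    rw [show zt ^ 2 * Quarter_a = zt * (zt * Quarter_a) by ring, ← h]
    push_cast
    ring
  · have s0 : sgz (F4.tr ((⟨1, 1⟩ : F4) * 0)) = 1 := by decide
    have s1 : sgz (F4.tr ((⟨1, 1⟩ : F4) * 1)) = -1 := by decide
    have s2 : sgz (F4.tr ((⟨1, 1⟩ : F4) * ⟨0, 1⟩)) = 1 := by decide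
    have s3 : sgz (F4.tr ((⟨1, 1⟩ : F4) * ⟨1, 1⟩)) = -1 := by decide
    have h := Quarter_sq (hm _ ha) m2 Quarter_zt_half Quarter_X1 m3 Quarter_zt2_half (by rw [Quarter_X2]; ring) m1
      Half_notMem (by
        change Quarter_a = _
        linear_combination -Quarter_a * hz3) hP
    rw [s0, s1, s2, s3, kae, if_neg (by decide), if_neg (by decide), ← h]
    push_cast
    ring

/-- translation by `1 / 2` -/
theorem Quarter_add {z : ℂ} (hz : 2 * z ∉ PP.lattice) :
    (S3.X z - Quarter_a) * (S3.X (z + 1 / 2) - Quarter_a) = 3 * Quarter_a ^ 2 := by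
  have hO := Om_ne_zero
  have m1 : 2 * (1 / 2 : ℂ) ∈ PP.lattice := by
    rw [show 2 * (1 / 2 : ℂ) = 1 by norm_num]
    exact S3.one_mem
  have hz0 := S3.notMem_of_two_mul hz
  have hz1 : z + 1 / 2 ∉ PP.lattice := by
    intro h
    apply hz
    have h2 := sub_mem (S3.mul_int_mem h 2) m1
    rwa [show ((2 : ℤ) : ℂ) * (z + 1 / 2) - 2 * (1 / 2) = 2 * z by push_cast; ring] at h2
  have h1 := Rq.sq hz0 Half_notMem hz1
  have h2 := Quarter_chord m1 Half_notMem hz
  have h3 := S3.Y_sq hz0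
  have hY := Quarter_Y_ne hz
  have hE : E1 (1 / 2) = 0 := by
    have h4 : E1 (1 / 2) = -E1 (1 / 2) := by
      have h5 := S3.E1_add S3.one_mem (-(1 / 2))
      rw [show (-(1 / 2) + 1 : ℂ) = 1 / 2 by norm_num, E1_odd] at h5
      exact h5
    have h6 : 2 * E1 (1 / 2) = 0 := by linear_combination h4
    simpa using h6
  rw [Rq.ev, Rq.ev, Rq.ev, hE, zero_div, sub_zero, ← sub_div] at h1
  have e1 : S3.X (1 / 2) = Quarter_a := rfl
  rw [e1] at h1 h2
  have ha := Quarter_a_eq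
  set x := S3.X z with hx
  set y := S3.Y z with hy
  set a := Quarter_a with haa
  set f := (E1 (z + 1 / 2) - E1 z) / Om with hf
  have hxa : x - a ≠ 0 := by
    intro h
    rw [h] at h2
    apply hY
    rw [← h2]
    ring
  have h4 : 4 * (x - a) ^ 2 * f ^ 2 = 4 * x ^ 3 + 1 := by
    rw [← h3, ← h2]
    ring
  have h5 : 4 * (x - a) * ((x - a) * (S3.X (z + 1 / 2) - a)) = 4 * (x - a) * (3 * a ^ 2) := by
    linear_combination h4 - 4 * (x - a) ^ 2 * h1 + ha
  exact mul_left_cancel₀ (mul_ne_zero (by norm_num) hxa) h5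

theorem Quarter_sqrt {A : ValuationSubring ℂ} (hA : Two A) {w : ℂ} (h : A.valuation (w ^ 2 - 1) < 1) :
    Rs A w 1 := by
  refine Rs.congr Rs.one ?_
  by_contra hc
  push Not at hc
  have h2 : A.valuation (2 : ℂ) < 1 := S3.v_two_lt hA
  have h3 : A.valuation (w - 1 + 2) = A.valuation (w - 1) :=
    A.valuation.map_add_eq_of_lt_left (lt_of_lt_of_le h2 hc)
  have h4 : w ^ 2 - 1 = (w - 1) * (w - 1 + 2) := by ring
  rw [h4, map_mul, h3] at h
  exact absurd h (not_lt.2 (one_le_mul hc hc))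

theorem Quarter_va {A : ValuationSubring ℂ} (hA : Two A) : A.valuation (Quarter_a⁻¹) < 1 := by
  by_contra h
  push Not at h
  have h1 : 1 ≤ A.valuation (Quarter_a⁻¹) ^ 3 := one_le_pow₀ h
  have ha := Quarter_a_eq
  have ha0 := Quarter_a_ne
  have h2 : Quarter_a⁻¹ ^ 3 = -(2 * 2) := by
    rw [inv_pow]
    field_simp
    linear_combination ha
  rw [← map_pow, h2, Valuation.map_neg, map_mul] at h1
  have h3 : A.valuation (2 : ℂ) < 1 := S3.v_two_lt hA
  exact absurd (mul_lt_one_of_lt_of_le h3 h3.le) (not_lt.2 h1)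

/-- `kacs` and `kae` -/
theorem Quarter_id {c : F4} (hc : c ≠ 0) (x y : ℂ) (h : (x - Quarter_a) * (y - Quarter_a) = 3 * Quarter_a ^ 2) :
    ∃ u : 𝓞 K, (x - Quarter_a) * (y - kae c) = kacs c * (em u * x - Quarter_a) := by
  have hcc : c = 1 ∨ c = ⟨0, 1⟩ ∨ c = ⟨1, 1⟩ := by
    revert c
    decide
  have hq := S3.zt_quad
  have hz : em wO = zt := by
    have h1 := emb_coords 0 1
    have h2 : (((0 : ℤ) : 𝓞 K) + ((1 : ℤ) : 𝓞 K) * wO) = wO := by simp
    rw [h2] at h1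
    refine h1.trans ?_
    simp
  rcases hcc with rfl | rfl | rfl
  · refine ⟨0, ?_⟩
    rw [kae, kacs, if_pos rfl, if_pos rfl, Res_em_zero, h]
    ring
  · refine ⟨wO * wO, ?_⟩
    rw [kae, kacs, if_neg (by decide), if_pos rfl, if_neg (by decide), if_pos rfl, Res_em_mul, hz]
    linear_combination h + Quarter_a * (Quarter_a + x * (1 - zt)) * hq
  · refine ⟨wO, ?_⟩
    rw [kae, kacs, if_neg (by decide), if_neg (by decide), if_neg (by decide), if_neg (by decide), hz]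
    linear_combination h + Quarter_a * (Quarter_a + x * (1 - zt)) * hq

/-- (A3) + (A4) -/
theorem quarter {A : ValuationSubring ℂ} (hA : Two A) {c : F4} (hc : c ≠ 0) {m k : 𝓞 K}
    (hm : (2 : 𝓞 K) ∣ m - 1) (hk : (2 : 𝓞 K) ∣ k - 1) (h : ¬ m ∣ k) :
    Rs A (FP c (em k / em (4 * m)) / (2 * Om * kac c)) 1 := by
  have hO := Om_ne_zero
  have hm2 : IsCoprime m (2 : 𝓞 K) := by
    obtain ⟨d, hd⟩ := hm
    exact ⟨1, -d, by linear_combination hd⟩
  have hm0 : em m ≠ 0 := by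
    intro h0
    have h1 : m = 0 := Half_em_inj (by rw [h0, Res_em_zero])
    rw [h1] at hm2
    exact two_not_isUnit (isCoprime_zero_left.1 hm2)
  obtain ⟨d, hd⟩ : (2 : 𝓞 K) ∣ k - m := by
    have e : k - m = (k - 1) - (m - 1) := by ring
    rw [e]
    exact dvd_sub hk hm
  set z : ℂ := em d / em m with hz
  have hzl : z ∉ PP.lattice := by
    intro hzz
    obtain ⟨b, hb⟩ := Half_mem_iff.1 hzz
    apply h
    refine ⟨1 + 2 * b, ?_⟩
    have h3 : d = m * b := by
      apply Half_em_inj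
      rw [Res_em_mul, hb, hz]
      field_simp
    linear_combination hd + 2 * h3
  obtain ⟨n, hn, hnz⟩ := Half_odd hm2 (z := z) ⟨d, by rw [hz]; field_simp⟩
  have h2z : 2 * z ∉ PP.lattice := by
    intro h
    apply hzl
    obtain ⟨j, hj⟩ := hn
    have h1 := sub_mem hnz (S3.mul_int_mem h j)
    have e : (n : ℂ) * z - ((j : ℤ) : ℂ) * (2 * z) = z := by
      rw [hj]
      push_cast
      ring
    rwa [e] at h1
  have hX : A.valuation (S3.X z) ≤ 1 := (A.valuation_le_one_iff _).2 (S3.X_mem hA hn hnz hzl)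
  have hP : 2 * (em k / em (4 * m)) = z + 1 / 2 := by
    have e1 : k = m + 2 * d := by linear_combination hd
    have e4 : em (4 * m) = 4 * em m := by
      have e5 : (4 * m : 𝓞 K) = 2 * (2 * m) := by ring
      rw [e5, Res_em_mul, Res_em_mul, Res_em_two]
      ring
    rw [e4, e1, Res_em_add, Res_em_mul, Res_em_two, hz]
    field_simp
    ring
  have hPl : 2 * (em k / em (4 * m)) ∉ PP.lattice := by
    rw [hP]
    intro h1
    apply h2z
    have h2 := sub_mem (S3.mul_int_mem h1 2) S3.one_mem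
    rwa [show ((2 : ℤ) : ℂ) * (z + 1 / 2) - 1 = 2 * z by push_cast; ring] at h2
  have h1 := Quarter_FP_sq hc hPl
  rw [hP] at h1
  have h2 := Quarter_add h2z
  obtain ⟨u, hu⟩ := Quarter_id hc _ _ h2
  have hk0 := kacs_ne c
  have hka := kac_ne hc
  have ha0 := Quarter_a_ne
  have hva := Quarter_va hA
  set x := S3.X z with hx
  set a := Quarter_a with ha
  set w := FP c (em k / em (4 * m)) / (2 * Om * kac c) with hw
  have h3 : w ^ 2 * kacs c = S3.X (z + 1 / 2) - kae c := by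
    rw [← kac_sq, ← mul_pow]
    have e : w * kac c = FP c (em k / em (4 * m)) / Om / 2 := by
      rw [hw]
      field_simp
    rw [e, div_pow, h1]
    ring
  have h4 : w ^ 2 * (x - a) = em u * x - a := by
    apply mul_left_cancel₀ hk0
    rw [← hu]
    linear_combination (x - a) * h3
  have hxa : A.valuation (x * a⁻¹) < 1 := by
    rw [map_mul, mul_comm]
    exact mul_lt_one_of_lt_of_le hva hX
  have hden : Rs A (1 - x * a⁻¹) 1 := by
    refine Rs.congr Rs.one ?_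
    rw [show 1 - x * a⁻¹ - 1 = -(x * a⁻¹) by ring, Valuation.map_neg]
    exact hxa
  have hnum : Rs A (1 - em u * (x * a⁻¹)) 1 := by
    refine Rs.congr Rs.one ?_
    rw [show 1 - em u * (x * a⁻¹) - 1 = -(em u * (x * a⁻¹)) by ring, Valuation.map_neg, map_mul, mul_comm]
    exact mul_lt_one_of_lt_of_le hxa (em_le u)
  have hden0 : 1 - x * a⁻¹ ≠ 0 := by
    intro h
    have h1 := hden.unit hA one_ne_zero
    rw [h, map_zero] at h1
    exact zero_ne_one h1
  have h5 : w ^ 2 = (1 - em u * (x * a⁻¹)) * (1 - x * a⁻¹)⁻¹ := by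
    rw [eq_mul_inv_iff_mul_eq₀ hden0]
    field_simp
    linear_combination -h4
  have h6 := hnum.mul (hden.inv hA)
  rw [← h5, mul_one] at h6
  apply Quarter_sqrt hA
  have h7 := h6.eq hA 1 (map_one red)
  rwa [Res_em_one] at h7

end

end Pool.Agent.Lib.MP_1a91b9_ntH2
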