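import Pool.Agent.Lib.MP_1a91b9_ntH2.A.Fp
import Pool.Agent.Lib.MP_1a91b9_ntH.A.RatD

/-!
# TwistDensity, phase 2, part A, file RatDc: the rationality of the L-quotient for a class `c ≠ 0`

`ShiftC c`: the formula for `FP c (1 / 4 + R)` as a rational function over `K` of `X R / X (1/2)` and
`Y R` (file RatQ). Everything else is as for `c = 0` (RatD).
-/

set_option autoImplicit false

namespace Pool.Agent.Lib.MP_1a91b9_ntH2

open NumberField Pool.Agent.Lib.MP_1a91b9_ntT Pool.Agent.Lib.MP_1a91b9_ntH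

noncomputable section

/-- translation by a point of order two -/
theorem FP_shift (c : F4) (P : ℂ) (y : 𝓞 K) :
    FP c (P + em y / 2) = (sgz (F4.tr (c * red y)) : ℂ) * FP c P := by
  rw [FP, FP, Finset.mul_sum, ← Equiv.sum_comp (Equiv.addRight (red y))]
  refine Finset.sum_congr rfl fun x _ => ?_
  rw [Equiv.coe_addRight]
  have h1 : (2 : 𝓞 K) ∣ lft (x + red y) + y - lft x := by
    rw [← red_eq_zero, map_sub, map_add, red_lft, red_lft, add_assoc, CharTwo.add_self_eq_zero,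
      add_zero, sub_self]
  obtain ⟨d, hd⟩ := h1
  have h2 : P + em y / 2 + em (lft (x + red y)) / 2 = P + em (lft x) / 2 + em d := by
    have e : lft (x + red y) = ((2 : ℕ) : 𝓞 K) * d + lft x - y := by
      push_cast
      linear_combination hd
    rw [e, RatA_sub, RatA_add, RatA_mul, RatA_ofNat]
    push_cast
    ring
  have htr : ∀ y z : F4, F4.tr (y + z) = F4.tr y + F4.tr z := by decide
  rw [h2, S3.E1_add (RatA_mem d), mul_add, htr, sgz_add]
  push_cast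
  ring

/-- the action of an automorphism on `X / a` and `Y` -/
theorem RatDc_rel {τ : ℂ ≃+* ℂ} (hτ : Rq.Fix τ) (M : ℕ) (hM : Odd M) (h3 : 3 ∣ M) :
    ∃ χ : 𝓞 K, s3 ∣ χ - 1 ∧ IsCoprime χ (M : 𝓞 K) ∧
      (∀ a : 𝓞 K, S3.Y (em (χ * a) / M) = τ (S3.Y (em a / M))) ∧
      ∀ a : 𝓞 K, em a / M ∉ PP.lattice →
        S3.X (em (χ * a) / M) / S3.X (1 / 2) = τ (S3.X (em a / M) / S3.X (1 / 2)) := by
  obtain ⟨χ, hχ3, hχ, hrel⟩ := exists_Rel hτ M hM h3
  have ha := RatZ_half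
  have ha0 : S3.X (1 / 2) ≠ 0 := by
    intro h0
    rw [h0] at ha
    norm_num at ha
  obtain ⟨i, hi⟩ : ∃ i : ℕ, zt ^ i * τ (S3.X (1 / 2)) = S3.X (1 / 2) := by
    have h1 := congrArg τ ha
    simp only [map_add, map_mul, map_pow, map_one, map_ofNat, map_zero] at h1
    have h2 : (S3.X (1 / 2) - τ (S3.X (1 / 2))) * ((S3.X (1 / 2) - zt * τ (S3.X (1 / 2))) *
        (S3.X (1 / 2) - zt ^ 2 * τ (S3.X (1 / 2)))) = 0 := by
      have h3 := S3.zt_quad
      generalize S3.X (1 / 2) = a at *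
      generalize τ a = b at *
      generalize zt = z at *
      linear_combination ha / 4 - h1 / 4 + (-(a ^ 2 * b) + a * b ^ 2 * z + b ^ 3 * (1 - z)) * h3
    rcases mul_eq_zero.1 h2 with h | h
    · exact ⟨0, by linear_combination -h⟩
    · rcases mul_eq_zero.1 h with h | h
      · exact ⟨1, by linear_combination -h⟩
      · exact ⟨2, by linear_combination -h⟩
  have hb0 : τ (S3.X (1 / 2)) ≠ 0 := (map_ne_zero τ).2 ha0
  have hw : em (wO ^ i) = zt ^ i := by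
    rw [em]
    have : ((wO ^ i : 𝓞 K) : K) = om ^ i := by push_cast; rfl
    rw [this, map_pow, embK_om]
  have hws : s3 ∣ wO - 1 := ⟨1 + wO, by rw [s3]; linear_combination -2 * wO_quad⟩
  have hXi : ∀ (i : ℕ) (z : ℂ), S3.X (zt ^ i * z) = zt ^ i * S3.X z := by
    intro i z
    induction i with
    | zero => rw [pow_zero, one_mul, one_mul]
    | succ i ih =>
      have e : zt ^ (i + 1) * z = zt * (zt ^ i * z) := by ring
      rw [e, Rq.X_zt, ih]
      ring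
  have hYi : ∀ (i : ℕ) (z : ℂ), S3.Y (zt ^ i * z) = S3.Y z := by
    intro i z
    induction i with
    | zero => rw [pow_zero, one_mul]
    | succ i ih =>
      have e : zt ^ (i + 1) * z = zt * (zt ^ i * z) := by ring
      rw [e, Rq.Y_zt, ih]
  have he : ∀ a : 𝓞 K, em (wO ^ i * χ * a) / M = zt ^ i * (em (χ * a) / M) := by
    intro a
    rw [mul_assoc, RatA_mul, hw, mul_div_assoc]
  refine ⟨wO ^ i * χ, ?_, ?_, ?_, ?_⟩
  · have h1 : s3 ∣ wO ^ i - 1 := by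
      have h2 : (wO - 1) ∣ wO ^ i - 1 := by
        have := sub_dvd_pow_sub_pow wO 1 i
        rwa [one_pow] at this
      exact hws.trans h2
    have e : wO ^ i * χ - 1 = (wO ^ i - 1) * χ + (χ - 1) := by ring
    rw [e]
    exact dvd_add (h1.mul_right _) (s3_dvd_three.trans hχ3)
  · refine IsCoprime.mul_left ⟨(wO ^ 2) ^ i, 0, ?_⟩ hχ
    rw [← mul_pow]
    have : wO ^ 2 * wO = 1 := by linear_combination (wO - 1) * wO_quad
    rw [this, one_pow, zero_mul, add_zero]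
  · intro a
    rw [he, hYi]
    rcases hrel a with ⟨h1, h2⟩ | ⟨-, -, -, h2⟩
    · have h0 : ∀ l : ℂ, l ∈ PP.lattice → S3.Y l = 0 := by
        intro l hl
        rw [S3.Y, S3.Q_half (by rw [two_mul]; exact add_mem hl hl), zero_div]
      rw [h0 _ h2, h0 _ h1, map_zero]
    · exact h2
  · intro a hna
    rw [he, hXi]
    rcases hrel a with ⟨h1, -⟩ | ⟨-, -, h2, -⟩
    · exact absurd h1 hna
    · rw [h2, map_div₀, div_eq_div_iff ha0 hb0]
      linear_combination τ (S3.X (em a / M)) * hi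

/-- **The Galois action on a sum over the points of odd order.** -/
theorem RatDc_sum {S : Finset Pq} {ι : Type} [Fintype ι] {v b : ι → 𝓞 K}
    (h : Reps (6 * DD S) v) (hb : ∀ i, 3 * DD S ∣ 4 * b i - v i) {τ : ℂ ≃+* ℂ} {χ : 𝓞 K}
    (h3 : s3 ∣ χ - 1) (hχ : IsCoprime χ ((3 * Nz (DD S) : ℕ) : 𝓞 K)) {f : ℂ → ℂ}
    (hf : ∀ l ∈ PP.lattice, ∀ z, f (z + l) = f z)
    (hY : ∀ a : 𝓞 K, em a / (3 * Nz (DD S) : ℕ) ∉ PP.lattice →
      f (em (χ * a) / (3 * Nz (DD S) : ℕ)) = τ (f (em a / (3 * Nz (DD S) : ℕ)))) :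
    τ (∑ i, (chi S (v i) : ℂ) * f (em (b i) / em (3 * DD S))) =
      (chi S χ : ℂ) * ∑ i, (chi S (v i) : ℂ) * f (em (b i) / em (3 * DD S)) := by
  obtain ⟨m, hm⟩ : Odd (3 * Nz (DD S)) := Odd.mul (by decide) (RatD_Nz_odd S)
  obtain ⟨M, hM⟩ : ∃ M : ℕ, M = 3 * Nz (DD S) := ⟨_, rfl⟩
  rw [← hM] at hχ hY hm
  have hD0 := DD_ne S
  have hM0 : (M : ℂ) ≠ 0 := by
    have : M ≠ 0 := by omega
    exact_mod_cast this
  have hMO : (M : 𝓞 K) = 2 * m + 1 := by
    rw [hm]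
    push_cast
    rfl
  obtain ⟨d, hd⟩ := RatD_dvd_Nz (DD S)
  have hMd : (M : 𝓞 K) = 3 * DD S * d := by
    rw [hM]
    push_cast
    rw [hd]
    ring
  have h3D : (3 * DD S : 𝓞 K) ≠ 0 := mul_ne_zero (by norm_num) hD0
  have h3Dd : (3 * DD S : 𝓞 K) ∣ (M : 𝓞 K) := ⟨d, hMd⟩
  -- the multiplier
  have hu : IsCoprime (χ + M * (1 - χ)) (6 * DD S) := by
    have h1 : IsCoprime (χ + M * (1 - χ)) (3 * DD S) := by
      refine IsCoprime.of_isCoprime_of_dvd_right ?_ h3Dd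
      exact hχ.add_mul_left_left (1 - χ)
    have h2 : IsCoprime (χ + M * (1 - χ)) (2 : 𝓞 K) := by
      refine ⟨1, -(m * (1 - χ)), ?_⟩
      rw [hMO]
      ring
    have e : (6 * DD S : 𝓞 K) = 2 * (3 * DD S) := by ring
    rw [e]
    exact h2.mul_right h1
  have huf : f0 ∣ χ + M * (1 - χ) - 1 := by
    rw [f0]
    refine s3_odd.mul_dvd ?_ ?_
    · refine ⟨m * (1 - χ), ?_⟩
      rw [hMO]
      ring
    · have e : χ + M * (1 - χ) - 1 = (χ - 1) * (1 - M) := by ring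
      rw [e]
      exact h3.mul_right _
  obtain ⟨σ, hσ⟩ := h.perm hu huf
  have hchi : ∀ i, chi S (v (σ i)) = chi S χ * chi S (v i) := by
    intro i
    have h1 : DD S ∣ (χ + M * (1 - χ)) * v i - v (σ i) := (dvd_mul_left _ _).trans (hσ i)
    have h2 : DD S ∣ (χ + M * (1 - χ)) - χ := by
      have e : (χ + M * (1 - χ)) - χ = M * (1 - χ) := by ring
      rw [e]
      exact ((dvd_mul_left _ _).trans h3Dd).mul_right _
    rw [← chi_congr h1, chi_mul, chi_congr h2]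
  have hsq : chi S χ * chi S χ = 1 := by
    have h1 : ¬ chi S χ = 0 := by
      rw [chi_coprime, not_not]
      exact IsCoprime.of_isCoprime_of_dvd_right hχ ((dvd_mul_left _ _).trans h3Dd)
    rcases chi_cases S χ with h2 | h2 | h2
    · exact absurd h2 h1
    · rw [h2]; norm_num
    · rw [h2]; norm_num
  have h2D : IsCoprime (3 * DD S : 𝓞 K) 2 := by
    refine IsCoprime.mul_left ⟨1, -1, by norm_num⟩ ?_
    exact RatD_two_dvd (DD_two S)
  have h4D : IsCoprime (3 * DD S : 𝓞 K) 4 := by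
    have e : (4 : 𝓞 K) = 2 * 2 := by norm_num
    rw [e]
    exact h2D.mul_right h2D
  have hdM : em (3 * DD S) * em d = M := by
    rw [← RatA_mul, ← hMd, RatA_ofNat]
  have hd0 : em d ≠ 0 := right_ne_zero_of_mul (hdM ▸ hM0)
  have hfe : ∀ a : 𝓞 K, em a / em (3 * DD S) = em (a * d) / M := by
    intro a
    rw [← hdM, RatA_mul a d, mul_div_mul_right _ _ hd0]
  have hτ : ∀ i, τ (f (em (b i) / em (3 * DD S))) = f (em (b (σ i)) / em (3 * DD S)) := by
    intro i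
    have hnl : em (b i) / em (3 * DD S) ∉ PP.lattice := by
      intro hl
      have h1 := RatA_dvd h3D hl
      have h2 : (3 * DD S : 𝓞 K) ∣ v i := by
        have e : v i = 4 * b i - (4 * b i - v i) := by ring
        rw [e]
        exact dvd_sub (h1.mul_left _) (hb i)
      apply s3_not_isUnit
      refine (h.cop i).isUnit_of_dvd' ((s3_dvd_three.mul_right _).trans h2) ?_
      refine Dvd.dvd.mul_right ?_ _
      have e : (6 : 𝓞 K) = 3 * 2 := by norm_num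
      rw [e]
      exact s3_dvd_three.mul_right _
    have h0 : τ (f (em (b i) / em (3 * DD S))) = f (em (χ * b i) / em (3 * DD S)) := by
      rw [hfe, hfe (χ * b i), mul_assoc]
      exact (hY _ (by rwa [← hfe])).symm
    rw [h0]
    have h1 : (3 * DD S : 𝓞 K) ∣ 4 * (χ * b i - b (σ i)) := by
      have e : 4 * (χ * b i - b (σ i)) = χ * (4 * b i - v i) - (4 * b (σ i) - v (σ i)) +
          ((χ + M * (1 - χ)) * v i - v (σ i)) - M * ((1 - χ) * v i) := by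
        ring
      rw [e]
      refine dvd_sub (dvd_add (dvd_sub ((hb i).mul_left _) (hb (σ i))) ?_) (h3Dd.mul_right _)
      refine Dvd.dvd.trans ⟨2, ?_⟩ (hσ i)
      ring
    have h2 := RatA_lat h3D (h4D.dvd_of_dvd_mul_left h1)
    have e : em (χ * b i) / em (3 * DD S) = em (b (σ i)) / em (3 * DD S) +
        (em (χ * b i) / em (3 * DD S) - em (b (σ i)) / em (3 * DD S)) := by ring
    rw [e, hf _ h2]
  rw [map_sum, Finset.mul_sum, ← Equiv.sum_comp σ (fun i => (chi S χ : ℂ) *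
    ((chi S (v i) : ℂ) * f (em (b i) / em (3 * DD S))))]
  refine Finset.sum_congr rfl fun i _ => ?_
  rw [map_mul, hτ, hchi]
  have h1 : τ (chi S (v i) : ℂ) = (chi S (v i) : ℂ) := map_intCast τ _
  have h2 : (chi S χ : ℂ) * (chi S χ : ℂ) = 1 := by exact_mod_cast hsq
  rw [h1]
  push_cast
  linear_combination -((chi S (v i) : ℂ) * f (em (b (σ i)) / em (3 * DD S))) * h2

theorem RatDc_dlc (c : F4) (S : Finset Pq) :
    ‖em (dlc c S)‖ = √3 ^ (if (qd.A S + c).b = 0 then 0 else 1) * ‖em (DD S)‖ := by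
  rw [dlc, RatA_mul, RatA_mul, norm_mul, norm_mul]
  have h1 : ‖em (if (qd.A S + c).a = 0 then 1 else -1)‖ = 1 := by
    split_ifs
    · rw [RatA_one, norm_one]
    · have : em (-1) = -1 := by
        have h2 := RatA_sub 0 (1 : 𝓞 K)
        have h3 := RatA_sub 0 (0 : 𝓞 K)
        rw [zero_sub] at h2
        rw [sub_self, sub_self] at h3
        rw [h2, h3, RatA_one, zero_sub]
      rw [this, norm_neg, norm_one]
  rw [h1, mul_one]
  congr 1
  split_ifs
  · rw [RatA_one, norm_one, pow_zero]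
  · rw [RatD_norm_s3, pow_one]

theorem RatDc_parity (c : F4) (S : Finset Pq) (n : Pq → ℕ)
    (hn : ∀ q : Pq, Nz q.1 = 2 * n q + 1) :
    Even (3 * (∑ q ∈ S, n q) + (if (qd.A S + c).b = 0 then 0 else 1) +
      if c.b = 0 then 0 else 1) := by
  have h1 := RatD_parity S n hn
  have h2 : ∀ x y : F4, ((x.b = 0) ∧ (y.b = 0) → (x + y).b = 0) ∧
      ((x.b = 0) ∧ ¬ (y.b = 0) → ¬ (x + y).b = 0) ∧ (¬ (x.b = 0) ∧ (y.b = 0) → ¬ (x + y).b = 0) ∧
      (¬ (x.b = 0) ∧ ¬ (y.b = 0) → (x + y).b = 0) := by decide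
  obtain ⟨h3, h4, h5, h6⟩ := h2 (qd.A S) c
  by_cases hA : (qd.A S).b = 0 <;> by_cases hc : c.b = 0
  · rw [if_pos (h3 ⟨hA, hc⟩), if_pos hc]
    rw [if_pos hA] at h1
    exact h1
  · rw [if_neg (h4 ⟨hA, hc⟩), if_neg hc]
    rw [if_pos hA] at h1
    rw [add_zero] at h1
    rw [add_assoc]
    exact h1.add (by decide)
  · rw [if_neg (h5 ⟨hA, hc⟩), if_pos hc]
    rw [if_neg hA] at h1
    exact h1
  · rw [if_pos (h6 ⟨hA, hc⟩), if_neg hc]
    rw [if_neg hA] at h1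
    exact h1

/-- the formula for `FP c (1 / 4 + R)` (file RatQ) -/
def ShiftC (c : F4) : Prop := ∃ (k : ℂ) (ρ : ℂ → ℂ → ℂ) (r : ℚ),
  (∀ τ : ℂ ≃+* ℂ, Rq.Fix τ → ∀ x y, τ (ρ x y) = ρ (τ x) (τ y)) ∧
  ‖k‖ ^ 2 = (r : ℝ) * √3 ^ (if c.b = 0 then 0 else 1) * (‖Om‖ * ‖ep‖) ^ 2 ∧
  ∀ R : ℂ, 4 * R ∉ PP.lattice → FP c (1 / 4 + R) = k * ρ (S3.X R / S3.X (1 / 2)) (S3.Y R)

/-- the class of `1 + 2 x + 2 y` -/
theorem RatDc_half (x y : 𝓞 K) : red (half (1 + 2 * (x + y))) = red x + red y := by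
  rw [half_eq, map_add]

/-- **The rationality of the L-quotient**, for a class `c` with the formula `ShiftC c`. -/
theorem crat_gen {c : F4} (hc : ShiftC c) {S : Finset Pq} {ι : Type} [Fintype ι] {v : ι → 𝓞 K}
    (h : Reps (6 * DD S) v) {L : ℂ}
    (hL : L = (em (12 * DD S))⁻¹ * ∑ i, ((chi S (v i) * sgz (F4.tr (c * red (half (v i)))) : ℤ) : ℂ) *
      FP c (em (v i) / em (12 * DD S))) :
    ∃ q : ℚ, ‖L‖ ^ 2 * ‖em (dlc c S)‖ = (q : ℝ) * (‖Om‖ * ‖ep‖) ^ 2 := by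
  classical
  obtain ⟨k, ρ, r, hρ, hk, hF⟩ := hc
  choose hh hh0 hhn hhτ using RatD_exists
  choose n hn hn' using hhn
  obtain ⟨l, hl⟩ := DD_two S
  have h3D : (3 * DD S : 𝓞 K) ≠ 0 := mul_ne_zero (by norm_num) (DD_ne S)
  have h3D' := RatA_ne h3D
  -- the points of odd order
  have hb : ∀ i, ∃ (x : F4) (b : 𝓞 K), v i = 3 * DD S + 4 * b + 6 * DD S * lft x := by
    intro i
    obtain ⟨t, ht⟩ : (2 : 𝓞 K) ∣ v i - 1 := (dvd_mul_right _ _).trans (h.fx i)
    have h1 : (2 : 𝓞 K) ∣ (t - 3 * l - 1) - 3 * DD S * lft (red (t - 3 * l - 1)) := by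
      rw [← red_eq_zero, map_sub, map_mul, red_lft, map_mul]
      have h2 : red (DD S) = 1 := by
        have h3 : red (DD S - 1) = 0 := red_eq_zero.2 (DD_two S)
        rw [map_sub, map_one] at h3
        exact sub_eq_zero.1 h3
      have h3 : red (3 : 𝓞 K) = 1 := by
        rw [map_ofNat]
        decide
      rw [h2, h3, one_mul, one_mul, sub_self]
    obtain ⟨b, hb⟩ := h1
    refine ⟨red (t - 3 * l - 1), b, ?_⟩
    linear_combination ht - 3 * hl + 2 * hb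
  choose x b hb using hb
  have hpt : ∀ i, em (v i) / em (12 * DD S) =
      (1 / 4 + em (b i) / em (3 * DD S)) + em (lft (x i)) / 2 := by
    intro i
    have e12 : em (12 * DD S) = 4 * em (3 * DD S) := by
      have e : (12 * DD S : 𝓞 K) = ((4 : ℕ) : 𝓞 K) * (3 * DD S) := by push_cast; ring
      rw [e, RatA_mul, RatA_ofNat]
      norm_num
    have e : v i = 3 * DD S + ((4 : ℕ) : 𝓞 K) * b i + ((2 : ℕ) : 𝓞 K) * (3 * DD S) * lft (x i) := by
      rw [hb i]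
      push_cast
      ring
    rw [e12, e, RatA_add, RatA_add, RatA_mul ((4 : ℕ) : 𝓞 K) (b i),
      RatA_mul (((2 : ℕ) : 𝓞 K) * (3 * DD S)) (lft (x i)), RatA_mul ((2 : ℕ) : 𝓞 K) (3 * DD S),
      RatA_ofNat, RatA_ofNat]
    push_cast
    field_simp
    ring
  have hsg : ∀ i, sgz (F4.tr (c * red (half (v i)))) * sgz (F4.tr (c * x i)) =
      sgz (F4.tr (c * red (3 * l + 1))) := by
    intro i
    have e : v i = 1 + 2 * ((3 * l + 1) + (2 * b i + 3 * DD S * lft (x i))) := by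
      rw [hb i]
      linear_combination 3 * hl
    have h2 : red (2 * b i + 3 * DD S * lft (x i)) = x i := by
      have e2 : 2 * b i + 3 * DD S * lft (x i) - lft (x i) =
          2 * (b i + (3 * l + 1) * lft (x i)) := by
        linear_combination 3 * lft (x i) * hl
      have h3 := red_eq.2 (⟨_, e2⟩ : (2 : 𝓞 K) ∣ 2 * b i + 3 * DD S * lft (x i) - lft (x i))
      rw [h3, red_lft]
    have htr : ∀ c y z : F4, F4.tr (c * (y + z)) = F4.tr (c * y) + F4.tr (c * z) := by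
      decide
    rw [e, RatDc_half, h2, htr, sgz_add, mul_assoc, ← sgz_add, CharTwo.add_self_eq_zero, sgz_zero,
      mul_one]
  obtain ⟨H, hH⟩ : ∃ H : ℂ, H = ∑ i, (chi S (v i) : ℂ) *
    (fun z => ρ (S3.X z / S3.X (1 / 2)) (S3.Y z)) (em (b i) / em (3 * DD S)) := ⟨_, rfl⟩
  have hbv : ∀ i, 3 * DD S ∣ 4 * b i - v i := fun i =>
    ⟨-1 - 2 * lft (x i), by rw [hb i]; ring⟩
  have h4R : ∀ i, 4 * (em (b i) / em (3 * DD S)) ∉ PP.lattice := by
    intro i hl4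
    have e : 4 * (em (b i) / em (3 * DD S)) = em (((4 : ℕ) : 𝓞 K) * b i) / em (3 * DD S) := by
      rw [RatA_mul ((4 : ℕ) : 𝓞 K) (b i), RatA_ofNat]
      push_cast
      ring
    rw [e] at hl4
    have h1 := RatA_dvd h3D hl4
    push_cast at h1
    have h2 : (3 * DD S : 𝓞 K) ∣ v i := by
      have e : v i = 4 * b i - (4 * b i - v i) := by ring
      rw [e]
      exact dvd_sub h1 (hbv i)
    apply s3_not_isUnit
    refine (h.cop i).isUnit_of_dvd' ((s3_dvd_three.mul_right _).trans h2) ?_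
    refine Dvd.dvd.mul_right ?_ _
    have e : (6 : 𝓞 K) = 3 * 2 := by norm_num
    rw [e]
    exact s3_dvd_three.mul_right _
  have hLS : L = (em (12 * DD S))⁻¹ * ((sgz (F4.tr (c * red (3 * l + 1))) : ℂ) * (k * H)) := by
    rw [hL, hH]
    congr 1
    rw [Finset.mul_sum, Finset.mul_sum]
    refine Finset.sum_congr rfl fun i _ => ?_
    rw [hpt i, FP_shift, red_lft, hF _ (h4R i), ← hsg i]
    push_cast
    ring
  obtain ⟨P, hP⟩ : ∃ P : ℂ, P = ∏ q ∈ S, hh q := ⟨_, rfl⟩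
  have hP0 : P ≠ 0 := by
    rw [hP]
    exact Finset.prod_ne_zero_iff.2 fun q _ => hh0 q
  -- the quotient is in `K`
  obtain ⟨x', hx⟩ : ∃ x' : K, embK x' = H / P := by
    refine Rg.mem_K fun τ hτ => ?_
    obtain ⟨χ, h3, hχ, hY, hX⟩ := RatDc_rel hτ (3 * Nz (DD S))
      (Odd.mul (by decide) (RatD_Nz_odd S)) (dvd_mul_right _ _)
    have h1 := RatDc_sum h hbv h3 hχ (f := fun z => ρ (S3.X z / S3.X (1 / 2)) (S3.Y z))
      (τ := τ) (fun l hl z => by rw [S3.X_add hl, Rq.Y_add hl]) (fun a ha => by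
        rw [hX a ha, hY a, hρ τ hτ])
    rw [← hH] at h1
    have hM : (3 * Nz (DD S) : ℕ) ≠ 0 := by
      have := (RatD_Nz_odd S).pos
      omega
    have hdM : ∀ q ∈ S, q.1 ∣ ((3 * Nz (DD S) : ℕ) : 𝓞 K) := by
      intro q hq
      have h2 : q.1 ∣ DD S := Finset.dvd_prod_of_mem _ hq
      push_cast
      exact (h2.trans (RatD_dvd_Nz _)).mul_left _
    have hqχ : ∀ q ∈ S, ¬ q.1 ∣ χ := by
      intro q hq h2
      exact q.2.1.not_isUnit (hχ.isUnit_of_dvd' h2 (hdM q hq))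
    have h2 : τ P = (chi S χ : ℂ) * P := by
      rw [hP, map_prod, chi]
      push_cast
      rw [← Finset.prod_mul_distrib]
      exact Finset.prod_congr rfl fun q hq => hhτ q τ χ _ hM (hdM q hq) hY (hqχ q hq)
    have h4 : (chi S χ : ℂ) ≠ 0 := by
      rw [chi]
      push_cast
      refine Finset.prod_ne_zero_iff.2 fun q hq => ?_
      have h5 : qs q χ ≠ 0 := fun h5 => hqχ q hq (qs_eq_zero.1 h5)
      exact_mod_cast h5
    rw [map_div₀, h1, h2, mul_div_mul_left _ _ h4]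
  have hHn : ‖H‖ ^ 2 = ((Algebra.norm ℚ x' : ℚ) : ℝ) * ‖P‖ ^ 2 := by
    have h1 : H = embK x' * P := by
      rw [hx, div_mul_cancel₀ _ hP0]
    have h2 := norm_K x'
    rw [Complex.mul_conj, Complex.normSq_eq_norm_sq] at h2
    have h3 : ((Algebra.norm ℚ x' : ℚ) : ℝ) = ‖embK x'‖ ^ 2 := by exact_mod_cast h2
    rw [h1, norm_mul, mul_pow, h3]
  have hPn : ‖P‖ ^ 2 * ‖em (DD S)‖ ^ 3 = √3 ^ (3 * ∑ q ∈ S, n q) := by
    rw [hP, RatD_em_DD, norm_prod, norm_prod, ← Finset.prod_pow, ← Finset.prod_pow,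
      ← Finset.prod_mul_distrib, Finset.mul_sum, ← Finset.prod_pow_eq_pow_sum]
    exact Finset.prod_congr rfl fun q _ => hn' q
  obtain ⟨m, hm⟩ := RatDc_parity c S n hn
  have hD0 : ‖em (DD S)‖ ≠ 0 := norm_ne_zero_iff.2 (RatA_ne (DD_ne S))
  have h12 : (12 * DD S : 𝓞 K) ≠ 0 := mul_ne_zero (by norm_num) (DD_ne S)
  have h120 : ‖em (12 * DD S)‖ ≠ 0 := norm_ne_zero_iff.2 (RatA_ne h12)
  refine ⟨r * (Algebra.norm ℚ x') * 3 ^ m / ((Nz (12 * DD S) : ℕ) * (Nz (DD S) : ℕ)), ?_⟩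
  have h1 : √3 ^ (3 * ∑ q ∈ S, n q) * √3 ^ (if (qd.A S + c).b = 0 then 0 else 1) *
      √3 ^ (if c.b = 0 then 0 else 1) = 3 ^ m := by
    rw [← pow_add, ← pow_add, hm, ← two_mul, pow_mul, Real.sq_sqrt (by norm_num)]
  have h2 : √3 ^ (if c.b = 0 then 0 else 1) * (‖P‖ ^ 2 * ‖em (dlc c S)‖) =
      3 ^ m / ‖em (DD S)‖ ^ 2 := by
    rw [RatDc_dlc, eq_div_iff (pow_ne_zero 2 hD0), ← h1, ← hPn]
    ring
  have h3 : ‖(sgz (F4.tr (c * red (3 * l + 1))) : ℂ)‖ = 1 := by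
    rcases sgz_cases (F4.tr (c * red (3 * l + 1))) with h | h
    · rw [h]; norm_num
    · rw [h]; norm_num
  rw [hLS, norm_mul, norm_inv, norm_mul, h3, one_mul, norm_mul, mul_pow, mul_pow, hHn, hk]
  push_cast
  rw [RatD_Nz, RatD_Nz]
  have h4 : (‖em (12 * DD S)‖⁻¹) ^ 2 * ((r : ℝ) * √3 ^ (if c.b = 0 then 0 else 1) *
      (‖Om‖ * ‖ep‖) ^ 2 * (((Algebra.norm ℚ x' : ℚ) : ℝ) * ‖P‖ ^ 2)) * ‖em (dlc c S)‖ =
      (r : ℝ) * ((Algebra.norm ℚ x' : ℚ) : ℝ) *
        (√3 ^ (if c.b = 0 then 0 else 1) * (‖P‖ ^ 2 * ‖em (dlc c S)‖)) /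
        (‖em (12 * DD S)‖ ^ 2) * (‖Om‖ * ‖ep‖) ^ 2 := by
    field_simp
  rw [h4, h2]
  field_simp

end

end Pool.Agent.Lib.MP_1a91b9_ntH2
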