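import Pool.Agent.Lib.MP_1a91b9_ntH2.A.RatQ
import Pool.Agent.Lib.MP_1a91b9_ntH2.A.Fp
import Pool.Agent.Lib.MP_1a91b9_ntT.Rq.Act

/-!
# TwistDensity, phase 2, part A, file RatS: the sums `FP c` at `1/4 + R`
-/

set_option autoImplicit false

namespace Pool.Agent.Lib.MP_1a91b9_ntH2

open NumberField Pool.Agent.Lib.MP_1a91b9_ntT Pool.Agent.Lib.MP_1a91b9_ntH

noncomputable section

open S3 in
/-- `FP c` as one of the sums of `RatQ`. -/
theorem FP_eq_FE (P : ℂ) : FP 1 P = FE 0 P ∧ FP F4.w P = FE 2 P ∧ FP (F4.w + 1) P = FE 1 P := by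
  have huniv : (Finset.univ : Finset F4) = {0, 1, F4.w, F4.w + 1} := by decide
  have l0 : em (lft 0) = 0 := by
    rw [lft, em]
    simp [show (0 : F4).a = 0 from rfl, show (0 : F4).b = 0 from rfl]
  have l1 : em (lft 1) = 1 := by
    rw [lft, em]
    simp [show (1 : F4).a = 1 from rfl, show (1 : F4).b = 0 from rfl, ZMod.val_one]
  have l2 : em (lft F4.w) = zt := by
    rw [lft, em]
    simp [show (F4.w).a = 0 from rfl, show (F4.w).b = 1 from rfl, ZMod.val_one, coe_wO, embK_om]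
  have l3 : em (lft (F4.w + 1)) = 1 + zt := by
    rw [lft, em]
    simp [show (F4.w + 1).a = 1 from rfl, show (F4.w + 1).b = 1 from rfl, ZMod.val_one, coe_wO, embK_om]
  have h0 : (1 / 2 : ℂ) = RatP.hf 0 := by simp [RatP.hf]
  have h1 : (zt / 2 : ℂ) = RatP.hf 1 := by
    simp only [RatP.hf, Fin.val_one, pow_one]
    ring
  have e3 : E1 (P + (1 + zt) / 2) = E1 (P + RatP.hf 2) := by
    apply E1_congr
    have e : P + (1 + zt) / 2 - (P + RatP.hf 2) = 1 + zt := by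
      simp only [RatP.hf, Fin.val_two]
      linear_combination (-1 / 2 : ℂ) * zt_quad
    rw [e]
    exact add_mem one_mem zt_mem
  have key : ∀ c : F4, FP c P = (sgz (F4.tr (c * 0)) : ℂ) * E1 P +
      (sgz (F4.tr (c * 1)) : ℂ) * E1 (P + RatP.hf 0) + (sgz (F4.tr (c * F4.w)) : ℂ) * E1 (P + RatP.hf 1) +
      (sgz (F4.tr (c * (F4.w + 1))) : ℂ) * E1 (P + RatP.hf 2) := by
    intro c
    rw [FP, huniv, Finset.sum_insert (by decide), Finset.sum_insert (by decide),
      Finset.sum_pair (by decide), l0, l1, l2, l3, e3, h0, h1, zero_div, add_zero]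
    ring
  refine ⟨?_, ?_, ?_⟩
  · rw [key, FE]
    have s0 : sgz (F4.tr (1 * 0)) = 1 := by decide
    have s1 : sgz (F4.tr (1 * 1)) = 1 := by decide
    have s2 : sgz (F4.tr (1 * F4.w)) = -1 := by decide
    have s3 : sgz (F4.tr (1 * (F4.w + 1))) = -1 := by decide
    rw [s0, s1, s2, s3]
    push_cast
    show _ = E1 P + E1 (P + RatP.hf 0) - E1 (P + RatP.hf 1) - E1 (P + RatP.hf 2)
    ring
  · rw [key, FE]
    have s0 : sgz (F4.tr (F4.w * 0)) = 1 := by decide
    have s1 : sgz (F4.tr (F4.w * 1)) = -1 := by decide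
    have s2 : sgz (F4.tr (F4.w * F4.w)) = -1 := by decide
    have s3 : sgz (F4.tr (F4.w * (F4.w + 1))) = 1 := by decide
    rw [s0, s1, s2, s3]
    push_cast
    show _ = E1 P + E1 (P + RatP.hf 2) - E1 (P + RatP.hf 0) - E1 (P + RatP.hf 1)
    ring
  · rw [key, FE]
    have s0 : sgz (F4.tr ((F4.w + 1) * 0)) = 1 := by decide
    have s1 : sgz (F4.tr ((F4.w + 1) * 1)) = -1 := by decide
    have s2 : sgz (F4.tr ((F4.w + 1) * F4.w)) = 1 := by decide
    have s3 : sgz (F4.tr ((F4.w + 1) * (F4.w + 1))) = -1 := by decide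
    rw [s0, s1, s2, s3]
    push_cast
    show _ = E1 P + E1 (P + RatP.hf 1) - E1 (P + RatP.hf 2) - E1 (P + RatP.hf 0)
    ring

theorem norm_er (j : Fin 3) : ‖er j‖ = ‖S3.X (1 / 2)‖ := by
  rw [er, norm_mul, norm_pow, S3.norm_zt, one_pow, one_mul]

theorem norm_X_half : ‖S3.X (1 / 2)‖ = ‖ep‖ ^ 2 ∧ 2 * ‖ep‖ * ‖S3.X (1 / 2)‖ = 1 := by
  have h0 : 0 < ‖S3.X (1 / 2)‖ := norm_pos_iff.2 X_half_ne
  have h1 : ‖ep‖ = (2 * ‖S3.X (1 / 2)‖)⁻¹ := by
    rw [ep, norm_neg, norm_inv, norm_mul]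
    norm_num
  have h2 : 4 * ‖S3.X (1 / 2)‖ ^ 3 = 1 := by
    have h3 : 4 * S3.X (1 / 2) ^ 3 = -1 := by linear_combination X_half_cube
    have h4 := congrArg norm h3
    rw [norm_mul, norm_pow, norm_neg, norm_one] at h4
    norm_num at h4
    exact h4
  constructor
  · rw [h1]
    field_simp
    linear_combination h2
  · rw [h1]
    field_simp

/-- The denominator does not vanish. -/
theorem den_ne {z : ℂ} (hz : z ∈ U4) : (S3.X z / S3.X (1 / 2)) ^ 2 - 2 * (S3.X z / S3.X (1 / 2)) - 2 ≠ 0 := by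
  intro h
  have ha := X_half_ne
  have h1 : S3.X z ^ 2 - 2 * er 0 * S3.X z - 2 * er 0 ^ 2 = 0 := by
    have e0 : er 0 = S3.X (1 / 2) := by simp [er]
    rw [e0]
    have h2 : S3.X (1 / 2) ^ 2 * ((S3.X z / S3.X (1 / 2)) ^ 2 - 2 * (S3.X z / S3.X (1 / 2)) - 2) = 0 := by
      rw [h, mul_zero]
    have h3 : S3.X (1 / 2) ^ 2 * ((S3.X z / S3.X (1 / 2)) ^ 2 - 2 * (S3.X z / S3.X (1 / 2)) - 2) =
        S3.X z ^ 2 - 2 * S3.X (1 / 2) * S3.X z - 2 * S3.X (1 / 2) ^ 2 := by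
      field_simp
    rw [← h3, h2]
  apply g_ne hz 0
  rw [gE, h1, zero_div]

theorem exists_shift {c : F4} (hc : c ≠ 0) : ∃ (k : ℂ) (rho : ℂ → ℂ → ℂ) (r : ℚ),
    (∀ τ : ℂ ≃+* ℂ, Rq.Fix τ → ∀ x y, τ (rho x y) = rho (τ x) (τ y)) ∧
      ‖k‖ ^ 2 = r * √3 ^ (if c.b = 0 then 0 else 1) * (‖Om‖ * ‖ep‖) ^ 2 ∧
      ∀ R : ℂ, 4 * R ∉ PP.lattice →
        FP c (1 / 4 + R) = k * rho (S3.X R / S3.X (1 / 2)) (S3.Y R) := by
  have hcases : c = 1 ∨ c = F4.w ∨ c = F4.w + 1 := by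
    revert c
    decide
  have ha := X_half_ne
  obtain ⟨n1, n2⟩ := norm_X_half
  have e0 : er 0 = S3.X (1 / 2) := by simp [er]
  have e1 : er 1 = zt * S3.X (1 / 2) := by simp [er]
  have e2 : er 2 = zt ^ 2 * S3.X (1 / 2) := by simp [er]
  have hs : ‖(1 : ℂ) - zt‖ = √3 := by
    have h1 : (1 - zt) ^ 2 = -3 * zt := by linear_combination S3.zt_quad
    have h2 := congrArg norm h1
    rw [norm_pow, norm_mul, norm_neg, S3.norm_zt] at h2
    norm_num at h2
    rw [← h2, Real.sqrt_sq (norm_nonneg _)]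
  have hs2 : ‖(1 : ℂ) - zt ^ 2‖ = √3 := by
    have h1 : (1 : ℂ) - zt ^ 2 = -(zt ^ 2 * (1 - zt)) := by linear_combination -S3.zt_cube
    rw [h1, norm_neg, norm_mul, norm_pow, S3.norm_zt, one_pow, one_mul, hs]
  rcases hcases with rfl | rfl | rfl
  · obtain ⟨κ, hκ, h⟩ := FE_shift_zero
    refine ⟨-2 * Om * κ / S3.X (1 / 2) ^ 2, fun x y => y / (x ^ 2 - 2 * x - 2), 48, ?_, ?_, ?_⟩
    · intro τ hτ x y
      simp only [map_div₀, map_sub, map_mul, map_pow, map_ofNat]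
    · have h1 : ‖κ‖ ^ 2 = 3 * ‖S3.X (1 / 2)‖ ^ 2 := by
        have := congrArg norm hκ
        rw [norm_pow, norm_mul, norm_pow, norm_er] at this
        norm_num at this
        exact this
      have hb : (1 : F4).b = 0 := rfl
      rw [hb, if_pos rfl, norm_div, norm_mul, norm_mul, norm_neg, norm_pow]
      have h0 : ‖S3.X (1 / 2)‖ ≠ 0 := norm_ne_zero_iff.2 ha
      rw [div_pow, mul_pow, h1, div_eq_iff (by positivity)]
      norm_num
      have n3 : 4 * ‖ep‖ ^ 2 * ‖S3.X (1 / 2)‖ ^ 2 = 1 := by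
        have : (2 * ‖ep‖ * ‖S3.X (1 / 2)‖) ^ 2 = 1 := by rw [n2, one_pow]
        linear_combination this
      linear_combination -12 * ‖Om‖ ^ 2 * ‖S3.X (1 / 2)‖ ^ 2 * n3
    · intro R hR
      have hR' : R ∈ U4 := hR
      have h2 := h R hR'
      have h3 := den_ne hR'
      rw [(FP_eq_FE _).1, add_comm]
      rw [e0] at h2
      generalize FE 0 (R + 1 / 4) = f at h2 ⊢
      simp only
      rw [← mul_div_assoc, eq_div_iff h3]
      field_simp
      linear_combination h2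
  · obtain ⟨κ, hκ, h⟩ := FE_shift (j := 1) (k := 2) (by
      rw [e2, e0]
      linear_combination S3.X (1 / 2) ^ 2 * (zt ^ 2 - zt + 1) * S3.zt_quad) (by
      rw [e0, e1, e2]
      linear_combination S3.X (1 / 2) * S3.zt_quad)
    refine ⟨-2 * Om * κ, fun x y => (x ^ 2 - 2 * zt * x - 2 * zt ^ 2) / (x ^ 2 - 2 * x - 2), 4, ?_, ?_, ?_⟩
    · intro τ hτ x y
      have h1 : τ zt = zt := hτ
      simp only [map_div₀, map_sub, map_mul, map_pow, map_ofNat, h1]
    · have h1 : ‖κ‖ ^ 2 = ‖S3.X (1 / 2)‖ * √3 := by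
        have h2 : κ ^ 2 = S3.X (1 / 2) * (1 - zt ^ 2) := by
          rw [hκ, e0, e2]
          ring
        have := congrArg norm h2
        rw [norm_pow, norm_mul, hs2] at this
        exact this
      have hb : (F4.w).b = 1 := rfl
      rw [hb, if_neg (by decide), norm_mul, norm_mul, norm_neg, mul_pow, h1, n1]
      norm_num
      ring
    · intro R hR
      have hR' : R ∈ U4 := hR
      have h2 := h R hR'
      have h3 := den_ne hR'
      rw [(FP_eq_FE _).2.1, add_comm]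
      rw [e0, e1] at h2
      generalize FE 2 (R + 1 / 4) = f at h2 ⊢
      simp only
      rw [← mul_div_assoc, eq_div_iff h3]
      field_simp
      linear_combination h2
  · obtain ⟨κ, hκ, h⟩ := FE_shift (j := 2) (k := 1) (by
      rw [e1, e0]
      linear_combination S3.X (1 / 2) ^ 2 * S3.zt_quad) (by
      rw [e0, e1, e2]
      linear_combination S3.X (1 / 2) * S3.zt_quad)
    refine ⟨-2 * Om * κ, fun x y => (x ^ 2 - 2 * zt ^ 2 * x - 2 * (zt ^ 2) ^ 2) / (x ^ 2 - 2 * x - 2), 4,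
      ?_, ?_, ?_⟩
    · intro τ hτ x y
      have h1 : τ zt = zt := hτ
      simp only [map_div₀, map_sub, map_mul, map_pow, map_ofNat, h1]
    · have h1 : ‖κ‖ ^ 2 = ‖S3.X (1 / 2)‖ * √3 := by
        have h2 : κ ^ 2 = S3.X (1 / 2) * (1 - zt) := by
          rw [hκ, e0, e1]
          ring
        have := congrArg norm h2
        rw [norm_pow, norm_mul, hs] at this
        exact this
      have hb : (F4.w + 1).b = 1 := rfl
      rw [hb, if_neg (by decide), norm_mul, norm_mul, norm_neg, mul_pow, h1, n1]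
      norm_num
      ring
    · intro R hR
      have hR' : R ∈ U4 := hR
      have h2 := h R hR'
      have h3 := den_ne hR'
      rw [(FP_eq_FE _).2.2, add_comm]
      rw [e0, e2] at h2
      generalize FE 1 (R + 1 / 4) = f at h2 ⊢
      simp only
      rw [← mul_div_assoc, eq_div_iff h3]
      field_simp
      linear_combination h2

end

end Pool.Agent.Lib.MP_1a91b9_ntH2
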