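import Pool.Agent.Lib.MP_1a91b9_ntH2.A.RatS
import Pool.Agent.Lib.MP_1a91b9_ntH2.A.RatDc
import Pool.Agent.Lib.MP_1a91b9_ntH2.A.EulC

/-!
# TwistDensity, phase 2, part A, file RatT: the rationality of the L-quotient for every class `c`
-/

set_option autoImplicit false

namespace Pool.Agent.Lib.MP_1a91b9_ntH2

open NumberField Pool.Agent.Lib.MP_1a91b9_ntT Pool.Agent.Lib.MP_1a91b9_ntH

noncomputable section

theorem LSc_zero (S : Finset Pq) : LSc 0 S = LS S := by
  refine S4.entire_eq (LSc_diff 0 S) (LS_diff S) fun s hs => ?_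
  rw [LSc_eq _ _ s hs, LS_eq S s hs]
  have h : pXc 0 S = pX S := funext fun I => by rw [pXc, pX, chic_zero]
  rw [h]

/-- **The rationality of the L-quotient.** -/
theorem crat_c (c : F4) (S : Finset Pq) :
    ∃ q : ℚ, ‖LSc c S 1‖ ^ 2 * ‖em (dlc c S)‖ = (q : ℝ) * (‖Om‖ * ‖ep‖) ^ 2 := by
  by_cases hc : c = 0
  · subst hc
    rw [LSc_zero, dlc_zero]
    exact crat S
  · obtain ⟨ι, _, v, hv, -⟩ := exists_reps S
    have h1 := euler_idc (c := c) (subset_refl S) hv
    rw [Finset.sdiff_self, Finset.prod_empty, mul_one] at h1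
    exact crat_gen (exists_shift hc) hv h1

end

end Pool.Agent.Lib.MP_1a91b9_ntH2
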