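import Pool.Agent.Lib.MP_1a91b9_ntH2.A.Em
import Pool.Agent.Lib.MP_1a91b9_ntH2.R.BijC
import Pool.Agent.Lib.MP_1a91b9_ntH.A.Chi

/-!
# TwistDensity, phase 2, part A, file ChiC: the characters of the class `c`

(`chic_one`, `chic_mul`, `chic_congr`, `chic_neg_one`, `dlc_two` are in `R.ChiC`, `R.BijC`.)
-/

set_option autoImplicit false

namespace Pool.Agent.Lib.MP_1a91b9_ntH2

open NumberField IsDedekindDomain Pool.Agent.Lib.MP_1a91b9_ntT Pool.Agent.Lib.MP_1a91b9_ntG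
  Pool.Agent.Lib.MP_1a91b9_ntH

noncomputable section

theorem chic_cases (c : F4) (S : Finset Pq) (x : 𝓞 K) :
    chic c S x = 0 ∨ chic c S x = 1 ∨ chic c S x = -1 := chic_or c S x

theorem chic_eq_zero {c : F4} {S : Finset Pq} {x : 𝓞 K} :
    chic c S x = 0 ↔ ∃ p ∈ S, p.1 ∣ x := chic_eq_zero_iff

theorem chic_coprime {c : F4} {S : Finset Pq} {x : 𝓞 K} :
    chic c S x = 0 ↔ ¬ IsCoprime x (DD S) := by
  rw [chic_eq_zero, ← chi_eq_zero, chi_coprime]

theorem half_mul {x y : 𝓞 K} (hx : (2 : 𝓞 K) ∣ x - 1) (hy : (2 : 𝓞 K) ∣ y - 1) :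
    red (half (x * y)) = red (half x) + red (half y) := cls_mul hx hy

theorem half_congr {x y : 𝓞 K} (hx : (2 : 𝓞 K) ∣ x - 1) (h : (4 : 𝓞 K) ∣ x - y) :
    red (half x) = red (half y) := cls_congr hx h

/-- the symbols of the system `tw c qd` -/
theorem chic_qd {c : F4} {S : Finset Pq} {q : Pq} (h : q ∉ S) :
    ∃ n : ℤ, chic c S q.1 = 1 - 2 * n ∧
      (n : F4) = F4.of (F4.tr (c * qd.a q)) + ∑ p ∈ S, F4.of (qd.s q p) := by
  obtain ⟨n, hn, hn'⟩ := sgz_eq (F4.tr (c * qd.a q) + ∑ p ∈ S, qd.s q p)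
  refine ⟨n, by rw [chic_prime h, hn], ?_⟩
  have e1 : ∑ p ∈ S, F4.of (qd.s q p) = F4.of (∑ p ∈ S, qd.s q p) := by
    classical
    clear h hn hn'
    induction S using Finset.induction_on with
    | empty => rw [Finset.sum_empty, Finset.sum_empty]; rfl
    | insert a S ha ih =>
      rw [Finset.sum_insert ha, Finset.sum_insert ha, ih]
      rfl
  have e2 : (n : F4) = F4.of (n : ZMod 2) := by
    have e1 : ((n : 𝓞 K) : 𝓞 K) = (n : 𝓞 K) + ((0 : ℤ) : 𝓞 K) * wO := by push_cast; ring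
    have e2 := congrArg red e1
    rw [red_coord, map_intCast] at e2
    rw [e2]
    simp [F4.of]
  rw [e1, e2, hn']
  rfl

/-- from the reciprocity law: `dlc c S` is a square modulo `q` iff `chic c S q = 1` -/
theorem chic_recip {c : F4} {S : Finset Pq} {q : Pq} (_h : q ∉ S) :
    qs q (dlc c S) = chic c S q.1 := qs_dlc c S q

end

end Pool.Agent.Lib.MP_1a91b9_ntH2
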