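import Pool.Agent.Lib.MP_1a91b9_ntH2.A.LocDef
import Pool.Agent.Lib.MP_1a91b9_ntH.A.LocB
import Pool.Agent.Lib.MP_1a91b9_ntT3.CU.BadV

/-!
# TwistDensity, phase 2, part A, file LocB: the places of additive reduction of `y² = x³ + (dlc c S)³`

The discriminant is `-432 δ ^ 6`, `δ = dlc c S`, and `c₄ = 0`; the valuation of the discriminant is `4` at the place `2`, and `6` at the
primes in `S` and, if `√-3` does not divide `δ`, at `√-3`: never divisible by `12`.
-/

set_option autoImplicit false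

namespace Pool.Agent.Lib.MP_1a91b9_ntH2

open NumberField IsDedekindDomain Polynomial Pool.Agent.Lib.MP_1a91b9_ntT
  Pool.Agent.Lib.MP_1a91b9_ntG Pool.Agent.Lib.MP_1a91b9_nt Pool.Agent.Lib.MP_1a91b9_ntH WithZero

noncomputable section

private theorem locB_c4 (c : F4) (S : Finset Pq) : (Wdc c S).c₄ = 0 := by
  simp only [Wdc, WeierstrassCurve.c₄, WeierstrassCurve.b₂, WeierstrassCurve.b₄]
  ring

private theorem locB_delta (c : F4) (S : Finset Pq) :
    (Wdc c S).Δ = ((-432 * dlc c S ^ 6 : 𝓞 K) : K) := by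
  have e : ((-432 * dlc c S ^ 6 : 𝓞 K) : K) = -432 * ((dlc c S : 𝓞 K) : K) ^ 6 := by
    change algebraMap (𝓞 K) K (-432 * dlc c S ^ 6) = -432 * (algebraMap (𝓞 K) K (dlc c S)) ^ 6
    rw [map_mul, map_pow, map_neg, map_ofNat]
  rw [e]
  simp only [Wdc, WeierstrassCurve.Δ, WeierstrassCurve.b₂, WeierstrassCurve.b₄, WeierstrassCurve.b₆,
    WeierstrassCurve.b₈]
  ring

/-- the valuation of an element exactly divisible by the `n`-th power of a generator of the place -/
private theorem locB_val (v : HeightOneSpectrum (𝓞 K)) (p x y : 𝓞 K) (n : ℕ) (hp : p ≠ 0)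
    (hv : v.asIdeal = Ideal.span {p}) (hx : x = p ^ n * y) (hy : y ∉ v.asIdeal) :
    v.valuation K ((x : 𝓞 K) : K) = exp (-(n : ℤ)) := by
  have e : v.valuation K ((x : 𝓞 K) : K) = v.intValuation x := v.valuation_of_algebraMap (K := K) x
  rw [e, hx, map_mul, map_pow, HeightOneSpectrum.intValuation_eq_one_iff.2 hy, mul_one,
    v.intValuation_singleton hp hv, ← exp_nsmul]
  congr 1
  rw [nsmul_eq_mul]
  ring

private theorem locB_pow (γ : ℤᵐ⁰) (n : ℕ) (hn : ¬ (12 : ℤ) ∣ n) : γ ^ 12 ≠ exp (-(n : ℤ)) := by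
  intro h
  have h0 : γ ≠ 0 := by
    rintro rfl
    rw [zero_pow (by norm_num)] at h
    exact exp_ne_zero h.symm
  obtain ⟨k, rfl⟩ : ∃ k : ℤ, γ = exp k := ⟨log γ, (exp_log h0).symm⟩
  rw [← exp_nsmul] at h
  have h1 := exp_injective h
  rw [nsmul_eq_mul] at h1
  apply hn
  refine ⟨-k, ?_⟩
  push_cast at h1
  linarith

private theorem locB_main (c : F4) (S : Finset Pq) (v : HeightOneSpectrum (𝓞 K)) (p y : 𝓞 K)
    (n : ℕ)
    (hp : p ≠ 0) (hv : v.asIdeal = Ideal.span {p}) (hx : -432 * dlc c S ^ 6 = p ^ n * y)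
    (hy : y ∉ v.asIdeal) (hn : ¬ (12 : ℤ) ∣ n) : locPoly (Wdc c S) v = 1 := by
  refine Pool.Agent.Lib.MP_1a91b9_ntT3.CU.locPoly_add (Wdc c S) (locB_c4 c S) v fun γ hγ => ?_
  rw [locB_delta, locB_val v p _ y n hp hv hx hy] at hγ
  exact locB_pow γ n hn hγ

private theorem locB_one (v : HeightOneSpectrum (𝓞 K)) {x a : 𝓞 K} (hx : x ∈ v.asIdeal)
    (ha : a ∈ v.asIdeal) {c : 𝓞 K} (h : x - 1 = a * c) : False := by
  have h1 : (1 : 𝓞 K) ∈ v.asIdeal := by
    have e : (1 : 𝓞 K) = x - a * c := by linear_combination -h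
    rw [e]
    exact Ideal.sub_mem _ hx (Ideal.mul_mem_right _ _ ha)
  exact v.isPrime.ne_top ((Ideal.eq_top_iff_one _).2 h1)

private theorem locB_two (v : HeightOneSpectrum (𝓞 K)) (h : (2 : 𝓞 K) ∈ v.asIdeal) :
    v.asIdeal = Ideal.span {2} := by
  refine le_antisymm (fun x hx => ?_) ((Ideal.span_singleton_le_iff_mem _).2 h)
  rw [Ideal.mem_span_singleton]
  by_contra hc
  have h1 : red x ≠ 0 := fun h1 => hc (red_eq_zero.1 h1)
  have h2 : ∀ y : F4, y ≠ 0 → y ^ 3 = 1 := by decide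
  have h3 : red (x ^ 3) = red 1 := by rw [map_pow, h2 _ h1, map_one]
  obtain ⟨y, hy⟩ := red_eq.1 h3
  exact locB_one v (Ideal.pow_mem_of_mem _ hx 3 (by norm_num)) h hy

/-- `dlc c S` is prime to `2`. -/
private theorem locB_odd (c : F4) (S : Finset Pq) : (2 : 𝓞 K) ∣ dlc c S - 1 := by
  obtain ⟨y, hy⟩ := DD_two S
  have h1 : (2 : 𝓞 K) ∣ (if (qd.A S + c).b = 0 then (1 : 𝓞 K) else s3) - 1 := by
    split_ifs
    · rw [sub_self]
      exact dvd_zero _
    · exact ⟨wO, by rw [s3]; ring⟩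
  have h2 : (2 : 𝓞 K) ∣ (if (qd.A S + c).a = 0 then (1 : 𝓞 K) else -1) - 1 := by
    split_ifs
    · rw [sub_self]
      exact dvd_zero _
    · exact ⟨-1, by ring⟩
  obtain ⟨y1, hy1⟩ := h1
  obtain ⟨y2, hy2⟩ := h2
  rw [dlc, eq_add_of_sub_eq hy, eq_add_of_sub_eq hy1, eq_add_of_sub_eq hy2]
  exact ⟨y + y1 + y2 + 2 * y * y1 + 2 * y * y2 + 2 * y1 * y2 + 4 * y * y1 * y2, by ring⟩

private theorem locB_sgn (c : F4) (S : Finset Pq) :
    (if (qd.A S + c).a = 0 then (1 : 𝓞 K) else -1) ^ 2 = 1 := by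
  split_ifs <;> ring

/-- the places of additive reduction -/
theorem loc_badc (c : F4) (S : Finset Pq) (v : HeightOneSpectrum (𝓞 K))
    (h : (2 : 𝓞 K) ∈ v.asIdeal ∨ (∃ q ∈ S, v = plc q) ∨ (s3 ∈ v.asIdeal ∧ (qd.A S + c).b = 0)) :
    locPoly (Wdc c S) v = 1 := by
  have hpr := v.isPrime
  rcases h with h | ⟨q, hq, rfl⟩ | ⟨h, hb⟩
  · -- the place above 2
    refine locB_main c S v 2 (-27 * dlc c S ^ 6) 4 two_ne_zero (locB_two v h) (by ring) ?_
      (by norm_num)
    intro hm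
    rcases hpr.mem_or_mem hm with h1 | h1
    · have h2 : (27 : 𝓞 K) ∈ v.asIdeal := by
        have h3 := (Ideal.neg_mem_iff _).2 h1
        rwa [neg_neg] at h3
      exact locB_one v h2 h (c := 13) (by norm_num)
    · have h2 := hpr.mem_of_pow_mem _ h1
      obtain ⟨y, hy⟩ := locB_odd c S
      exact locB_one v h2 h (c := y) hy
  · -- a prime in `S`
    have hE : DD S = q.1 * DD (S.erase q) := by
      rw [DD, DD, Finset.mul_prod_erase _ _ hq]
    have h6 := six_notMem q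
    have hs : s3 ∉ (plc q).asIdeal := by
      intro h1
      apply h6
      have e : (6 : 𝓞 K) = s3 * (-2 * s3) := by linear_combination (2 : 𝓞 K) * s3_sq
      rw [e]
      exact Ideal.mul_mem_right _ _ h1
    refine locB_main c S (plc q) q.1 (-432 * ((if (qd.A S + c).b = 0 then 1 else s3) *
      (if (qd.A S + c).a = 0 then 1 else -1) * DD (S.erase q)) ^ 6) 6 q.2.1.ne_zero rfl ?_ ?_
      (by norm_num)
    · rw [dlc, hE]
      ring
    · intro hm
      rcases hpr.mem_or_mem hm with h1 | h1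
      · apply h6
        have h2 : (432 : 𝓞 K) ∈ (plc q).asIdeal := by
          have h3 := (Ideal.neg_mem_iff _).2 h1
          rwa [neg_neg] at h3
        refine hpr.mem_of_pow_mem 4 ?_
        have e : (6 : 𝓞 K) ^ 4 = 432 * 3 := by norm_num
        rw [e]
        exact Ideal.mul_mem_right _ _ h2
      · have h2 := hpr.mem_of_pow_mem _ h1
        rcases hpr.mem_or_mem h2 with h3 | h3
        · rcases hpr.mem_or_mem h3 with h4 | h4
          · split_ifs at h4
            · exact hpr.ne_top ((Ideal.eq_top_iff_one _).2 h4)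
            · exact hs h4
          · have h5 := Ideal.pow_mem_of_mem _ h4 2 (by norm_num)
            rw [locB_sgn] at h5
            exact hpr.ne_top ((Ideal.eq_top_iff_one _).2 h5)
        · rw [mem_plc, DD, Prime.dvd_finsetProd_iff q.2.1] at h3
          obtain ⟨p, hp, hqp⟩ := h3
          exact Pq_ndvd (Finset.ne_of_mem_erase hp).symm hqp
  · -- the place above 3
    have hdl : dlc c S ^ 2 = DD S ^ 2 := by
      rw [dlc, if_pos hb, one_mul, mul_pow, locB_sgn, one_mul]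
    refine locB_main c S v s3 (16 * dlc c S ^ 6) 6 s3_ne (locB_s3 v h) ?_ ?_ (by norm_num)
    · have e : s3 ^ 6 = -27 := by
        have e1 : s3 ^ 6 = (s3 ^ 2) ^ 3 := by ring
        rw [e1, s3_sq]
        norm_num
      rw [e]
      ring
    · intro hm
      rcases hpr.mem_or_mem hm with h1 | h1
      · have h3 : (3 : 𝓞 K) ∈ v.asIdeal := by
          rw [three_eq]
          exact (Ideal.neg_mem_iff _).2 (Ideal.pow_mem_of_mem _ h 2 (by norm_num))
        exact locB_one v h1 h3 (c := 5) (by norm_num)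
      · have e : dlc c S ^ 6 = (DD S ^ 2) ^ 3 := by
          rw [← hdl]
          ring
        rw [e] at h1
        have h2 := hpr.mem_of_pow_mem _ (hpr.mem_of_pow_mem _ h1)
        obtain ⟨y, hy⟩ := DD_f0 S
        exact locB_one v h2 h (c := 2 * y) (by rw [hy, f0]; ring)

end

end Pool.Agent.Lib.MP_1a91b9_ntH2
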