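import Pool.Agent.Lib.MP_1a91b9_ntH2.A.ChiC
import Pool.Agent.Lib.MP_1a91b9_ntX.LF.Ser

/-!
# TwistDensity, phase 2, part A, file LocDef: the curve `y² = x³ + δ³`, `δ = dlc c S`
-/

set_option autoImplicit false

namespace Pool.Agent.Lib.MP_1a91b9_ntH2

open NumberField IsDedekindDomain Polynomial Pool.Agent.Lib.MP_1a91b9_ntT
  Pool.Agent.Lib.MP_1a91b9_ntG Pool.Agent.Lib.MP_1a91b9_nt Pool.Agent.Lib.MP_1a91b9_ntH

noncomputable section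

/-- `y² = x³ + δ³`, `δ = dlc c S` -/
def Wdc (c : F4) (S : Finset Pq) : WeierstrassCurve K := ⟨0, 0, 0, 0, ((dlc c S : 𝓞 K) : K) ^ 3⟩

end

end Pool.Agent.Lib.MP_1a91b9_ntH2
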