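import Pool.Agent.Lib.MP_1a91b9_ntH.A.RatP

/-!
# MP_1a91b9_nt (TwistDensity), phase 2, part A, file RatQ: the alternating sums of `E1` over the points of order two

`FE j P = E1 P + E1 (P + t_j) - E1 (P + t_{j+1}) - E1 (P + t_{j+2})`, `t_j = zt ^ j / 2`, `er j = X (t_j)`.
* `FE_eq`: `FE j P = - 2 Om g (er j) P`, `g e P = (X ^ 2 - 2 e X - 2 e ^ 2) / Y` at `P`;
* `g_sq`: `g e P ^ 2 = X (2 P) - e` for `4 e ^ 3 = -1`;
* `FE_shift_zero`, `FE_shift`: the values at `R + 1/4` as rational functions of `X R`, `Y R`, up to one constant.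
-/

set_option autoImplicit false

namespace Pool.Agent.Lib.MP_1a91b9_ntH2

open Complex Filter Topology NumberField
open Pool.Agent.Lib.MP_1a91b9_ntT Pool.Agent.Lib.MP_1a91b9_ntT.S3 Pool.Agent.Lib.MP_1a91b9_ntH.RatP

noncomputable section

/-- The values of `X` at the points of order two. -/
def er (j : Fin 3) : ℂ := zt ^ (j : ℕ) * X (1 / 2)

theorem X_half_cube : 4 * X (1 / 2) ^ 3 + 1 = 0 := by
  have h := P_half_cube
  have hO := Om_ne_zero
  rw [X]
  field_simp
  linear_combination h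

theorem er_cube (j : Fin 3) : 4 * er j ^ 3 + 1 = 0 := by
  have h := X_half_cube
  have h1 : (zt ^ (j : ℕ)) ^ 3 = 1 := by rw [← pow_mul, mul_comm, pow_mul, zt_cube, one_pow]
  rw [er, mul_pow, h1]
  linear_combination h

theorem X_half_ne : X (1 / 2) ≠ 0 := by
  intro h
  have h1 := X_half_cube
  rw [h] at h1
  norm_num at h1

theorem er_ne (j : Fin 3) : er j ≠ 0 := mul_ne_zero (pow_ne_zero _ zt_ne_zero) X_half_ne

theorem X_zt (z : ℂ) : X (zt * z) = zt * X z := by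
  rw [X, X, P_zt]
  ring

theorem X_hf (j : Fin 3) : X (hf j) = er j := by
  fin_cases j
  · simp [hf, er]
  · show X (zt ^ 1 * (1 / 2)) = zt ^ 1 * X (1 / 2)
    rw [pow_one, X_zt]
  · show X (zt ^ 2 * (1 / 2)) = zt ^ 2 * X (1 / 2)
    have e : zt ^ 2 * (1 / 2 : ℂ) = zt * (zt * (1 / 2)) := by ring
    rw [e, X_zt, X_zt]
    ring

/-- Translation by a point of order two, in the coordinates `X`, `Y`. -/
theorem half_sum' {z : ℂ} (hz : 2 * z ∉ PP.lattice) (j : Fin 3) :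
    2 * (X z - er j) * (E1 (z + hf j) - E1 z) = Om * Y z := by
  have h := half_sum hz (two_hf j) (hf_notMem j)
  have hO := Om_ne_zero
  rw [← X_hf, X, X, Y]
  field_simp
  linear_combination h

theorem prod_er (x : ℂ) : 4 * ((x - er 0) * (x - er 1) * (x - er 2)) = 4 * x ^ 3 + 1 := by
  have h := X_half_cube
  have h1 : er 0 = X (1 / 2) := by simp [er]
  have h2 : er 1 = zt * X (1 / 2) := by simp [er]
  have h3 : er 2 = zt ^ 2 * X (1 / 2) := by simp [er]
  rw [h1, h2, h3]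
  linear_combination (4 * (-x ^ 2 * X (1 / 2) + x * X (1 / 2) ^ 2 * zt)) * zt_quad - h -
    4 * X (1 / 2) ^ 3 * zt_cube

/-- The function `g`. -/
def gE (e z : ℂ) : ℂ := (X z ^ 2 - 2 * e * X z - 2 * e ^ 2) / Y z

/-- The alternating sum. -/
def FE (j : Fin 3) (z : ℂ) : ℂ := E1 z + E1 (z + hf j) - E1 (z + hf (j + 1)) - E1 (z + hf (j + 2))

theorem er_rel (j : Fin 3) : er (j + 1) = zt * er j ∧ er (j + 2) = zt ^ 2 * er j := by
  fin_cases j
  · exact ⟨by simp [er], by simp [er]⟩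
  · refine ⟨?_, ?_⟩
    · show zt ^ 2 * X (1 / 2) = zt * (zt ^ 1 * X (1 / 2))
      ring
    · show zt ^ 0 * X (1 / 2) = zt ^ 2 * (zt ^ 1 * X (1 / 2))
      linear_combination -X (1 / 2) * zt_cube
  · refine ⟨?_, ?_⟩
    · show zt ^ 0 * X (1 / 2) = zt * (zt ^ 2 * X (1 / 2))
      linear_combination -X (1 / 2) * zt_cube
    · show zt ^ 1 * X (1 / 2) = zt ^ 2 * (zt ^ 2 * X (1 / 2))
      linear_combination -zt * X (1 / 2) * zt_cube

theorem prod_er' (j : Fin 3) (x : ℂ) :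
    4 * ((x - er j) * (x - er (j + 1)) * (x - er (j + 2))) = 4 * x ^ 3 + 1 := by
  rw [← prod_er]
  fin_cases j
  · rfl
  · show 4 * ((x - er 1) * (x - er 2) * (x - er 0)) = _
    ring
  · show 4 * ((x - er 2) * (x - er 0) * (x - er 1)) = _
    ring

theorem FE_eq {z : ℂ} (hz : 2 * z ∉ PP.lattice) (j : Fin 3) : FE j z = -2 * Om * gE (er j) z := by
  have hY := Y_ne hz
  have h0 := half_sum' hz j
  have h1 := half_sum' hz (j + 1)
  have h2 := half_sum' hz (j + 2)
  have hp := prod_er' j (X z)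
  rw [← Y_sq (notMem_of_two_mul hz)] at hp
  obtain ⟨e1, e2⟩ := er_rel j
  rw [FE, gE, mul_div_assoc', eq_div_iff hY]
  rw [e1] at h1
  rw [e2] at h2
  rw [e1, e2] at hp
  apply mul_left_cancel₀ hY
  linear_combination (-(E1 (z + hf j) - E1 z) + (E1 (z + hf (j + 1)) - E1 z) +
      (E1 (z + hf (j + 2)) - E1 z)) * hp +
    2 * (X z - zt * er j) * (X z - zt ^ 2 * er j) * h0 -
    2 * (X z - er j) * (X z - zt ^ 2 * er j) * h1 - 2 * (X z - er j) * (X z - zt * er j) * h2 +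
    2 * Om * Y z * er j ^ 2 * zt_cube - 2 * Om * Y z * er j ^ 2 * zt_quad

/-- Duplication: `g` is a square root of `X (2 z) - e`. -/
theorem g_sq {z : ℂ} (hz : 2 * z ∉ PP.lattice) {e : ℂ} (he : 4 * e ^ 3 + 1 = 0) :
    gE e z ^ 2 = X (2 * z) - e := by
  have hY := Y_ne hz
  have h1 := X_two_mul hz
  have h2 := Y_sq (notMem_of_two_mul hz)
  rw [← h2] at h1
  rw [gE, div_pow, div_eq_iff (pow_ne_zero 2 hY), sub_mul, h1, h2]
  linear_combination (2 * X z + e) * he

theorem FE_sq {z : ℂ} (hz : 2 * z ∉ PP.lattice) (j : Fin 3) :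
    FE j z ^ 2 = 4 * Om ^ 2 * (X (2 * z) - er j) := by
  rw [FE_eq hz, mul_pow, g_sq hz (er_cube j)]
  ring

theorem E1_hf (j : Fin 3) : E1 (hf j) = 0 := by
  have h1 := E1_add (two_hf j) (-hf j)
  have e : -hf j + 2 * hf j = hf j := by ring
  rw [e, E1_neg] at h1
  have h2 : 2 * E1 (hf j) = 0 := by linear_combination h1
  simpa using h2

theorem two_add_hf {z : ℂ} (hz : 2 * z ∉ PP.lattice) (j : Fin 3) : 2 * (z + hf j) ∉ PP.lattice := by
  intro h
  apply hz
  have := sub_mem h (two_hf j)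
  have e : 2 * (z + hf j) - 2 * hf j = 2 * z := by ring
  rwa [e] at this

theorem X_sub_ne {z : ℂ} (hz : 2 * z ∉ PP.lattice) (j : Fin 3) : X z - er j ≠ 0 := by
  intro h
  have h1 := prod_er' j (X z)
  rw [h, zero_mul, zero_mul, mul_zero, ← Y_sq (notMem_of_two_mul hz)] at h1
  exact Y_ne hz (pow_eq_zero_iff (by norm_num) |>.1 h1.symm)

/-- Translation by a point of order two. -/
theorem X_add_hf {z : ℂ} (hz : 2 * z ∉ PP.lattice) (j : Fin 3) :
    (X (z + hf j) - er j) * (X z - er j) = 3 * er j ^ 2 := by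
  have hz1 := notMem_of_two_mul hz
  have h1 := add_sq hz1 (hf_notMem j) (notMem_of_two_mul (two_add_hf hz j))
  rw [E1_hf, sub_zero] at h1
  have h2 := half_sum' hz j
  have h3 := Y_sq hz1
  have h4 := X_sub_ne hz j
  have h5 := er_cube j
  have hO := Om_ne_zero
  have h6 : (E1 (z + hf j) - E1 z) ^ 2 = Om ^ 2 * (X z + er j + X (z + hf j)) := by
    rw [h1, ← X_hf, X, X, X]
    field_simp
  have h7 : Om ^ 2 * (4 * (X z - er j) ^ 2 * (X z + er j + X (z + hf j))) =
      Om ^ 2 * (4 * X z ^ 3 + 1) := by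
    rw [← h3]
    linear_combination -4 * (X z - er j) ^ 2 * h6 + (2 * (X z - er j) * (E1 (z + hf j) - E1 z) +
      Om * Y z) * h2
  have h8 := mul_left_cancel₀ (pow_ne_zero 2 hO) h7
  apply mul_left_cancel₀ h4
  linear_combination h8 / 4 + h5 / 4

/-- The other two roots. -/
theorem X_add_hf' {z : ℂ} (hz : 2 * z ∉ PP.lattice) {j : Fin 3} {e : ℂ}
    (he : e ^ 2 + e * er j + er j ^ 2 = 0) :
    (X (z + hf j) - e) * (X z - er j) = (er j - e) * (X z + er j + e) := by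
  linear_combination X_add_hf hz j + he

/-! ### The symmetry under the points of order two -/

theorem FE_congr {x y : ℂ} (h : x - y ∈ PP.lattice) (j : Fin 3) : FE j x = FE j y := by
  have h1 : ∀ k, E1 (x + hf k) = E1 (y + hf k) := fun k => by
    apply E1_congr
    have e : x + hf k - (y + hf k) = x - y := by ring
    rwa [e]
  rw [FE, FE, E1_congr h, h1, h1, h1]

theorem hf_sum (j : Fin 3) : hf j + hf (j + 1) - hf (j + 2) ∈ PP.lattice := by
  have key : ∀ m : ℕ, zt ^ m * (1 / 2) + zt ^ (m + 1) * (1 / 2) + zt ^ (m + 2) * (1 / 2) = 0 := by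
    intro m
    linear_combination zt ^ m * (1 / 2) * zt_quad
  have k0 := key 0
  have h2 : ∀ k : Fin 3, 2 * hf k ∈ PP.lattice := two_hf
  have h3 : hf 0 + hf 1 + hf 2 = 0 := by
    show zt ^ 0 * (1 / 2) + zt ^ 1 * (1 / 2) + zt ^ 2 * (1 / 2) = 0
    exact k0
  fin_cases j
  · show hf 0 + hf 1 - hf 2 ∈ PP.lattice
    have e : hf 0 + hf 1 - hf 2 = -(2 * hf 2) := by linear_combination h3
    rw [e]
    exact neg_mem (h2 2)
  · show hf 1 + hf 2 - hf 0 ∈ PP.lattice
    have e : hf 1 + hf 2 - hf 0 = -(2 * hf 0) := by linear_combination h3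
    rw [e]
    exact neg_mem (h2 0)
  · show hf 2 + hf 0 - hf 1 ∈ PP.lattice
    have e : hf 2 + hf 0 - hf 1 = -(2 * hf 1) := by linear_combination h3
    rw [e]
    exact neg_mem (h2 1)

theorem FE_add_self (j : Fin 3) (z : ℂ) : FE j (z + hf j) = FE j z := by
  have hs := hf_sum j
  have a1 : E1 (z + hf j + hf j) = E1 z := by
    apply E1_congr
    have e : z + hf j + hf j - z = 2 * hf j := by ring
    rw [e]
    exact two_hf j
  have a2 : E1 (z + hf j + hf (j + 1)) = E1 (z + hf (j + 2)) := by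
    apply E1_congr
    have e : z + hf j + hf (j + 1) - (z + hf (j + 2)) = hf j + hf (j + 1) - hf (j + 2) := by ring
    rw [e]
    exact hs
  have a3 : E1 (z + hf j + hf (j + 2)) = E1 (z + hf (j + 1)) := by
    apply E1_congr
    have e : z + hf j + hf (j + 2) - (z + hf (j + 1)) =
        2 * hf j - (hf j + hf (j + 1) - hf (j + 2)) := by ring
    rw [e]
    exact sub_mem (two_hf j) hs
  rw [FE, FE, a1, a2, a3]
  ring

theorem FE_add_one (j : Fin 3) (z : ℂ) : FE j (z + hf (j + 1)) = - FE j z := by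
  have hs := hf_sum j
  have a1 : E1 (z + hf (j + 1) + hf (j + 1)) = E1 z := by
    apply E1_congr
    have e : z + hf (j + 1) + hf (j + 1) - z = 2 * hf (j + 1) := by ring
    rw [e]
    exact two_hf _
  have a2 : E1 (z + hf (j + 1) + hf j) = E1 (z + hf (j + 2)) := by
    apply E1_congr
    have e : z + hf (j + 1) + hf j - (z + hf (j + 2)) = hf j + hf (j + 1) - hf (j + 2) := by ring
    rw [e]
    exact hs
  have a3 : E1 (z + hf (j + 1) + hf (j + 2)) = E1 (z + hf j) := by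
    apply E1_congr
    have e : z + hf (j + 1) + hf (j + 2) - (z + hf j) =
        2 * hf (j + 1) - (hf j + hf (j + 1) - hf (j + 2)) := by ring
    rw [e]
    exact sub_mem (two_hf _) hs
  rw [FE, FE, a1, a2, a3]
  ring

theorem FE_add_two (j : Fin 3) (z : ℂ) : FE j (z + hf (j + 2)) = - FE j z := by
  have h1 : FE j (z + hf (j + 2)) = FE j (z + hf j + hf (j + 1)) := by
    apply FE_congr
    have e : z + hf (j + 2) - (z + hf j + hf (j + 1)) = -(hf j + hf (j + 1) - hf (j + 2)) := by ring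
    rw [e]
    exact neg_mem (hf_sum j)
  rw [h1, FE_add_one, FE_add_self]

/-! ### The values at `R + 1/4` -/

/-- The generic points. -/
def U4 : Set ℂ := {z : ℂ | 4 * z ∈ PP.lattice}ᶜ

theorem mem_U4 {z : ℂ} : z ∈ U4 ↔ 4 * z ∉ PP.lattice := Iff.rfl

theorem U4_preconn : IsPreconnected U4 := by
  apply isPreconnected_compl_of_countable
  exact countable_lat.preimage_of_injOn (f := fun w : ℂ => 4 * w)
    (fun x _ y _ h => mul_left_cancel₀ (by norm_num : (4 : ℂ) ≠ 0) h)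

theorem U4_four {z : ℂ} (hz : z ∈ U4) : 2 * (2 * z) ∉ PP.lattice := by
  intro h
  apply hz
  have e : 2 * (2 * z) = 4 * z := by ring
  rw [e] at h
  exact h

theorem U4_two {z : ℂ} (hz : z ∈ U4) : 2 * z ∉ PP.lattice := notMem_of_two_mul (U4_four hz)

theorem U4_shift {z : ℂ} (hz : z ∈ U4) : z + 1 / 4 ∈ U4 := by
  intro h
  apply hz
  have h' : 4 * (z + 1 / 4) ∈ PP.lattice := h
  have h2 := sub_mem h' one_mem
  have e : 4 * (z + 1 / 4) - 1 = 4 * z := by ring
  rw [e] at h2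
  exact h2

theorem two_shift (z : ℂ) : 2 * (z + 1 / 4) = 2 * z + hf 0 := by
  show _ = 2 * z + zt ^ 0 * (1 / 2)
  ring

theorem g_ne {z : ℂ} (hz : z ∈ U4) (j : Fin 3) : gE (er j) z ≠ 0 := by
  intro h
  have h1 := g_sq (U4_two hz) (er_cube j)
  rw [h] at h1
  exact X_sub_ne (U4_four hz) j (by linear_combination -h1)

theorem continuousAt_g {z : ℂ} (hz : 2 * z ∉ PP.lattice) (e : ℂ) : ContinuousAt (gE e) z := by
  have hz1 := notMem_of_two_mul hz
  have h1 : ContinuousAt X z := (continuousAt_P hz1).div_const _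
  have h2 : ContinuousAt Y z := (differentiableAt_Q hz1).continuousAt.div_const _
  exact ContinuousAt.div (((h1.pow 2).sub (continuousAt_const.mul h1)).sub continuousAt_const) h2
    (Y_ne hz)

theorem continuousAt_g_shift {z : ℂ} (hz : z ∈ U4) (e : ℂ) :
    ContinuousAt (fun z => gE e (z + 1 / 4)) z :=
  ContinuousAt.comp (g := gE e) (f := fun z => z + 1 / 4)
    (continuousAt_g (U4_two (U4_shift hz)) e) (by fun_prop)

/-- A continuous function whose square is constant. -/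
theorem const_of_sq {f : ℂ → ℂ} (hf : ∀ z ∈ U4, ContinuousAt f z) {s : ℂ} (hs : s ≠ 0)
    (h : ∀ z ∈ U4, f z ^ 2 = s) : ∃ κ : ℂ, κ ^ 2 = s ∧ ∀ z ∈ U4, f z = κ := by
  obtain ⟨z₀, hz₀⟩ : ∃ z₀, z₀ ∈ U4 :=
    (eventually_mul_notMem (by norm_num : (4 : ℂ) ≠ 0) 0).exists
  have h0 := h z₀ hz₀
  have hne : f z₀ ≠ 0 := by
    intro h1
    rw [h1] at h0
    exact hs (by linear_combination -h0)
  refine ⟨f z₀, h0, fun z hz => ?_⟩
  have h1 := U4_preconn.eq_of_sq_eq (f := f) (g := fun _ => f z₀)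
    (fun x hx => (hf x hx).continuousWithinAt) continuousOn_const
    (fun x hx => by
      show f x ^ 2 = f z₀ ^ 2
      rw [h x hx, h0]) (fun _ => hne) hz₀ rfl
  exact h1 hz

/-- `c = 1`: the value at `R + 1/4`. -/
theorem FE_shift_zero : ∃ κ : ℂ, κ ^ 2 = 3 * er 0 ^ 2 ∧ ∀ z ∈ U4,
    FE 0 (z + 1 / 4) * (X z ^ 2 - 2 * er 0 * X z - 2 * er 0 ^ 2) = -2 * Om * κ * Y z := by
  obtain ⟨κ, hκ, h⟩ := const_of_sq (f := fun z => gE (er 0) (z + 1 / 4) * gE (er 0) z)
    (s := 3 * er 0 ^ 2) (fun z hz => (continuousAt_g_shift hz _).mul (continuousAt_g (U4_two hz) _))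
    (mul_ne_zero (by norm_num) (pow_ne_zero 2 (er_ne 0)))
    (fun z hz => by
      rw [mul_pow, g_sq (U4_two (U4_shift hz)) (er_cube 0), g_sq (U4_two hz) (er_cube 0), two_shift,
        X_add_hf (U4_four hz)])
  refine ⟨κ, hκ, fun z hz => ?_⟩
  have h1 := h z hz
  have hY := Y_ne (U4_two hz)
  have h2 : gE (er 0) z * Y z = X z ^ 2 - 2 * er 0 * X z - 2 * er 0 ^ 2 := by
    rw [gE, div_mul_cancel₀ _ hY]
  rw [FE_eq (U4_two (U4_shift hz)), ← h2]
  linear_combination (-2 * Om * Y z) * h1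

/-- `c ≠ 1`: the value at `R + 1/4`. -/
theorem FE_shift {j k : Fin 3} (hjk : er k ^ 2 + er k * er 0 + er 0 ^ 2 = 0)
    (hk : er j = - er 0 - er k) : ∃ κ : ℂ, κ ^ 2 = er 0 - er k ∧ ∀ z ∈ U4,
    FE k (z + 1 / 4) * (X z ^ 2 - 2 * er 0 * X z - 2 * er 0 ^ 2) =
      -2 * Om * κ * (X z ^ 2 - 2 * er j * X z - 2 * er j ^ 2) := by
  obtain ⟨κ, hκ, h⟩ := const_of_sq
    (f := fun z => gE (er k) (z + 1 / 4) * gE (er 0) z / gE (er j) z)
    (s := er 0 - er k)
    (fun z hz => ContinuousAt.div ((continuousAt_g_shift hz _).mul (continuousAt_g (U4_two hz) _))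
      (continuousAt_g (U4_two hz) _) (g_ne hz _))
    (by
      intro h0
      have h1 : er k = er 0 := by linear_combination -h0
      rw [h1] at hjk
      have h2 : 3 * er 0 ^ 2 = 0 := by linear_combination hjk
      exact mul_ne_zero (by norm_num) (pow_ne_zero 2 (er_ne 0)) h2)
    (fun z hz => by
      have h4 := U4_four hz
      rw [div_pow, mul_pow, g_sq (U4_two (U4_shift hz)) (er_cube k), g_sq (U4_two hz) (er_cube 0),
        g_sq (U4_two hz) (er_cube j), two_shift, X_add_hf' h4 hjk, div_eq_iff (X_sub_ne h4 j), hk]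
      ring)
  refine ⟨κ, hκ, fun z hz => ?_⟩
  have h1 := h z hz
  have hY := Y_ne (U4_two hz)
  have hg := g_ne hz j
  rw [div_eq_iff hg] at h1
  have h2 : gE (er 0) z * Y z = X z ^ 2 - 2 * er 0 * X z - 2 * er 0 ^ 2 := by
    rw [gE, div_mul_cancel₀ _ hY]
  have h3 : gE (er j) z * Y z = X z ^ 2 - 2 * er j * X z - 2 * er j ^ 2 := by
    rw [gE, div_mul_cancel₀ _ hY]
  rw [FE_eq (U4_two (U4_shift hz)), ← h2, ← h3]
  linear_combination (-2 * Om * Y z) * h1

end

end Pool.Agent.Lib.MP_1a91b9_ntH2
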