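import Pool.Agent.Lib.MP_1a91b9_ntH2.A.IndC
import Pool.Agent.Lib.MP_1a91b9_ntH2.A.SerC
import Pool.Agent.Lib.MP_1a91b9_ntH.A.Top

/-!
# TwistDensity, phase 2, part A: the L-value of `y² = x³ + δ³`, `δ = dlc c S`, for every class `c`
-/

set_option autoImplicit false

namespace Pool.Agent.Lib.MP_1a91b9_ntH2

open NumberField IsDedekindDomain Polynomial Pool.Agent.Lib.MP_1a91b9_ntT
  Pool.Agent.Lib.MP_1a91b9_ntG Pool.Agent.Lib.MP_1a91b9_nt Pool.Agent.Lib.MP_1a91b9_ntH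
open Pool.Agent.Lib.MP_1a91b9_ntT.S4 (Lf)

noncomputable section

/-- **Q1**, for every class `c`: the L-value is not zero if the determinant is not zero. -/
theorem lvalue_mainc (c : F4) (S : Finset Pq) (h : ((tw c qd).M S).det ≠ 0) :
    ∃ g : ℂ → ℂ, Differentiable ℂ g ∧
      (∀ s : ℂ, 3 / 2 < s.re → g s = (Wdc c S).LSeries s) ∧ g 1 ≠ 0 := by
  by_cases hc : c = 0
  · subst hc
    rw [tw_zero] at h
    have e : Wdc 0 S = Wd S := by rw [Wdc, Wd, dlc_zero]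
    rw [e]
    exact lvalue_main S h
  · obtain ⟨g, h1, h2, h3⟩ := lser_mainc c S
    refine ⟨g, h1, h2, fun h0 => ?_⟩
    rw [h0, zero_mul] at h3
    have h4 := LSc_ne hc h
    exact mul_ne_zero h4 ((_root_.map_ne_zero _).2 h4) h3.symm

end

end Pool.Agent.Lib.MP_1a91b9_ntH2
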